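import Pool.Agent.Q65.LU.Basic

/-!
Project LU (helper77), job UNIQ: uniqueness of the coordinates up to the adjoint action.
-/

set_option autoImplicit false

namespace Pool.Agent.Q65.LU

open MeasureTheory Matrix Set Filter Topology Pool.Agent.Q77.LU
open scoped ContDiff Matrix.Norms.Frobenius

section
variable {N n D l : ℕ} {G : Subgroup (UU N)} [NeZero l] {B : LieBasis G n}

theorem nx_sg (h6 : S_SYMM) (hG : IsClosed (G : Set (UU N))) (dc : Dec B D l) (h : G)
    (x : (Fin D × Fin n → ℝ) × (Fin dc.M → ℝ)) : nx (dc.sg h x) = nx x := by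
  obtain ⟨-, e1, e2, -⟩ := h6 N n D l G hG B dc h x
  unfold nx
  rw [e1, e2]

theorem tg_sg (h4 : S_TGA) (h6 : S_SYMM) (hG : IsClosed (G : Set (UU N))) (dc : Dec B D l) (h : G)
    (x : (Fin D × Fin n → ℝ) × (Fin dc.M → ℝ)) :
    tg (dc.ch (dc.sg h x)) = gauge (fun _ => h) (tg (dc.ch x)) := by
  obtain ⟨e1, -⟩ := h6 N n D l G hG B dc h x
  rw [e1]
  exact (h4 N D l G (dc.ch x)).2.1 (fun _ => h)

theorem tg_orb (h4 : S_TGA) (h6 : S_SYMM) (hG : IsClosed (G : Set (UU N))) (dc : Dec B D l)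
    (γ : (Fin D → ZMod l) → G) {z : Fin D → G} (hz : ∀ i, z i ∈ Subgroup.center G)
    (x : (Fin D × Fin n → ℝ) × (Fin dc.M → ℝ)) :
    tg (gauge γ (centre z (dc.ch x))) = centre z (tg (dc.ch (dc.sg (γ 0) x))) := by
  rw [(h4 N D l G (centre z (dc.ch x))).2.1 γ, (h4 N D l G (dc.ch x)).2.2.1 z hz,
    gauge_centre hz, tg_sg h4 h6 hG]

theorem center_inv {z : Fin D → G} (hz : ∀ i, z i ∈ Subgroup.center G) :
    ∀ i, (z i)⁻¹ ∈ Subgroup.center G := fun i => Subgroup.inv_mem _ (hz i)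

/-- a configuration whose tree gauge form agrees with the chart outside of the tree -/
theorem eq_ext (h1 : S_THD) (h4 : S_TGA) (hG : IsClosed (G : Set (UU N))) (dc : Dec B D l)
    {z : Fin D → G} {U : Link D l → G} {x : (Fin D × Fin n → ℝ) × (Fin dc.M → ℝ)}
    (h : ∀ e : NT D l, centre z (tg U) e.1 = dc.th x e) : centre z (tg U) = tg (dc.ch x) := by
  rw [← (h1 N n D l G hG B dc).2.2.2 x]
  funext e
  by_cases he : inT e
  · rw [ext_T _ he]
    have h2 : ¬ e.1 e.2 = -1 := he.2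
    simp only [centre, if_neg h2]
    exact (h4 N D l G U).1 e he
  · exact (h ⟨e, he⟩).trans (ext_NT _ ⟨e, he⟩).symm

theorem eq_orb (h1 : S_THD) (h4 : S_TGA) (hG : IsClosed (G : Set (UU N))) (dc : Dec B D l)
    {z : Fin D → G} (hz : ∀ i, z i ∈ Subgroup.center G) {U : Link D l → G}
    {x : (Fin D × Fin n → ℝ) × (Fin dc.M → ℝ)}
    (h : ∀ e : NT D l, centre z (tg U) e.1 = dc.th x e) :
    U = gauge (fun y => (pth U y)⁻¹ * pth (dc.ch x) y) (centre (fun i => (z i)⁻¹) (dc.ch x)) := by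
  have e1 := eq_ext h1 h4 hG dc h
  have e2 : tg U = centre (fun i => (z i)⁻¹) (tg (dc.ch x)) := by
    rw [← e1, centre_centre]
    exact (centre_eq_one (fun i => inv_mul_cancel (z i)) _).symm
  rw [← gauge_gauge, gauge_centre (center_inv hz)]
  change U = gauge _ (centre (fun i => (z i)⁻¹) (tg (dc.ch x)))
  rw [← e2]
  exact untg U

theorem th_cont (h1 : S_THD) (hG : IsClosed (G : Set (UU N))) (dc : Dec B D l) :
    Continuous dc.th := by
  refine continuous_pi fun e => ?_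
  rw [mt_inducing.continuous_iff]
  exact (continuous_apply e).comp (h1 N n D l G hG B dc).2.1.continuous

theorem dim_eq (h5 : S_CARD) (dc : Dec B D l) :
    Fintype.card (Fin D × Fin n) + Fintype.card (Fin dc.M) = n * Fintype.card (NT D l) := by
  have e1 := dc.card
  have e2 := h5 D l
  rw [Fintype.card_prod, Fintype.card_fin, Fintype.card_fin, Fintype.card_fin]
  have e3 : n * (Fintype.card (NT D l) + l ^ D) = n * (D * l ^ D + 1) := by rw [e2]
  have e4 : n * (Fintype.card (NT D l) + l ^ D) = n * Fintype.card (NT D l) + l ^ D * n := by ring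
  have e5 : n * (D * l ^ D + 1) = D * l ^ D * n + n := by ring
  omega

end

theorem nbhd_center {G : Type} [Group G] [TopologicalSpace G] [T1Space G]
    (hf : Finite (Subgroup.center G)) : ∀ᶠ g in 𝓝 (1 : G), g ∈ Subgroup.center G → g = 1 := by
  have h1 : ((Subgroup.center G : Set G) \ {1}).Finite := (Set.toFinite _).subset Set.sdiff_subset
  have h2 : ((Subgroup.center G : Set G) \ {1})ᶜ ∈ 𝓝 (1 : G) :=
    h1.isClosed.isOpen_compl.mem_nhds (by simp)
  filter_upwards [h2] with g hg hc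
  by_contra h3
  exact hg ⟨hc, h3⟩

theorem nx_cont {P Q : Type} [Fintype P] [Fintype Q] :
    Continuous (fun x : (P → ℝ) × (Q → ℝ) => nx x) := by
  unfold nx n2
  fun_prop

theorem t_UNIQ (h1 : S_THD) (h2 : S_INVF) (h3 : S_FINC) (h4 : S_TGA) (h5 : S_CARD) (h6 : S_SYMM) :
    S_UNIQ := by
  intro N n D l _ G hG B hNC dc
  have hfin := h3 N n G hG B hNC
  obtain ⟨hth0, hthS, hthD, hext⟩ := h1 N n D l G hG B dc
  obtain ⟨r1, hr1, Ξ, hΞ, hinv, hopen⟩ := h2 N n G hG B (Fin D × Fin n) (Fin dc.M) (NT D l)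
    (dim_eq h5 dc) dc.th hthS hthD
  have hc := th_cont h1 hG dc
  have h7 : ∀ e : NT D l, ∀ᶠ p in 𝓝 ((0, 0) : ((Fin D × Fin n → ℝ) × (Fin dc.M → ℝ)) ×
      ((Fin D × Fin n → ℝ) × (Fin dc.M → ℝ))),
      dc.th p.1 e * (dc.th p.2 e)⁻¹ ∈ Subgroup.center G → dc.th p.1 e * (dc.th p.2 e)⁻¹ = 1 := by
    intro e
    have hcont : Continuous fun p : ((Fin D × Fin n → ℝ) × (Fin dc.M → ℝ)) ×
      ((Fin D × Fin n → ℝ) × (Fin dc.M → ℝ)) => dc.th p.1 e * (dc.th p.2 e)⁻¹ :=
      (((continuous_apply e).comp hc).comp continuous_fst).mul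
        (((continuous_apply e).comp hc).comp continuous_snd).inv
    have h8 := hcont.tendsto (0, 0)
    have e0 : dc.th 0 e * (dc.th 0 e)⁻¹ = 1 := mul_inv_cancel _
    rw [e0] at h8
    exact h8.eventually (nbhd_center hfin)
  have h8 := eventually_all.2 h7
  obtain ⟨r2, hr2, h9⟩ := Metric.eventually_nhds_iff.1 h8
  have key : ∀ (γ : (Fin D → ZMod l) → G) (z : Fin D → G)
      (x y : (Fin D × Fin n → ℝ) × (Fin dc.M → ℝ)), (∀ i, z i ∈ Subgroup.center G) →
      nx x < (min r1 r2) ^ 2 → nx y < (min r1 r2) ^ 2 → dc.ch x = gauge γ (centre z (dc.ch y)) →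
      (∀ i, z i = 1) ∧ x = dc.sg (γ 0) y := by
    intro γ z x y hz hx hy he
    have e1 : tg (dc.ch x) = centre z (tg (dc.ch (dc.sg (γ 0) y))) := by
      rw [he, tg_orb h4 h6 hG dc γ hz]
    have hw : nx (dc.sg (γ 0) y) < (min r1 r2) ^ 2 := by rw [nx_sg h6 hG]; exact hy
    have hpos : 0 < min r1 r2 := lt_min hr1 hr2
    have hz1 : ∀ i, z i = 1 := by
      intro i
      have hni : ¬ inT ((-unitv i, i) : Link D l) := by
        intro h
        apply h.2
        simp [unitv]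
      have e2 : dc.th x ⟨(-unitv i, i), hni⟩ =
          z i * dc.th (dc.sg (γ 0) y) ⟨(-unitv i, i), hni⟩ := by
        change tg (dc.ch x) (-unitv i, i) = z i * tg (dc.ch (dc.sg (γ 0) y)) (-unitv i, i)
        rw [e1]
        unfold centre
        rw [if_pos]
        simp [unitv]
      have e3 : dc.th x ⟨(-unitv i, i), hni⟩ *
          (dc.th (dc.sg (γ 0) y) ⟨(-unitv i, i), hni⟩)⁻¹ = z i := by
        rw [e2, mul_inv_cancel_right]
      have hd : dist ((x, dc.sg (γ 0) y) : ((Fin D × Fin n → ℝ) × (Fin dc.M → ℝ)) ×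
          ((Fin D × Fin n → ℝ) × (Fin dc.M → ℝ))) (0, 0) < r2 := by
        rw [Prod.dist_eq]
        refine max_lt ?_ ?_
        · change dist x 0 < r2
          rw [dist_zero_right]
          exact (norm_lt_of_nx hpos hx).trans_le (min_le_right _ _)
        · change dist (dc.sg (γ 0) y) 0 < r2
          rw [dist_zero_right]
          exact (norm_lt_of_nx hpos hw).trans_le (min_le_right _ _)
      have h10 := h9 hd ⟨(-unitv i, i), hni⟩
      change dc.th x ⟨(-unitv i, i), hni⟩ *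
          (dc.th (dc.sg (γ 0) y) ⟨(-unitv i, i), hni⟩)⁻¹ ∈ Subgroup.center G →
        dc.th x ⟨(-unitv i, i), hni⟩ *
          (dc.th (dc.sg (γ 0) y) ⟨(-unitv i, i), hni⟩)⁻¹ = 1 at h10
      rw [e3] at h10
      exact h10 (hz i)
    refine ⟨hz1, ?_⟩
    rw [centre_eq_one hz1, ← hext, ← hext] at e1
    have e2 := ext_inj e1
    have hle : (min r1 r2) ^ 2 ≤ r1 ^ 2 := pow_le_pow_left₀ hpos.le (min_le_left _ _) 2
    rw [← hinv x (hx.trans_le hle), ← hinv _ (hw.trans_le hle), e2]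
  refine ⟨min r1 r2, lt_min hr1 hr2, key, fun ρ hρ hρr => ?_⟩
  have ho := hopen ρ hρ (hρr.trans (min_le_left _ _))
  have e : {U : Link D l → G | Orb dc ρ U} = ⋃ z : {z : Fin D → G // ∀ i, z i ∈ Subgroup.center G},
      (fun U : Link D l → G => fun e : NT D l => centre z.1 (tg U) e.1) ⁻¹'
        (dc.th '' {x | nx x < ρ ^ 2}) := by
    ext U
    simp only [mem_ofPred_eq, mem_iUnion, mem_preimage, mem_image]
    constructor
    · rintro ⟨γ, z, x, hz, hx, hU⟩
      refine ⟨⟨fun i => (z i)⁻¹, center_inv hz⟩, dc.sg (γ 0) x, ?_, ?_⟩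
      · rw [nx_sg h6 hG]; exact hx
      · funext e
        rw [hU, tg_orb h4 h6 hG dc γ hz, centre_centre]
        rw [centre_eq_one (fun i => inv_mul_cancel (z i))]
        rfl
    · rintro ⟨z, x, hx, hU⟩
      exact ⟨_, _, x, center_inv z.2, hx,
        eq_orb h1 h4 hG dc z.2 (fun e => (congrFun hU e).symm)⟩
  rw [e]
  refine isOpen_iUnion fun z => ho.preimage ?_
  exact continuous_pi fun e => (continuous_apply e.1).comp ((centre_cont z.1).comp tg_cont)

end Pool.Agent.Q65.LU
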