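import Pool.Agent.Q77.LU.StmH

/-!
Project LU (helper77): elementary facts on the lattice gauge field.
-/

set_option autoImplicit false

namespace Pool.Agent.Q65.LU

open MeasureTheory Matrix Set Filter Topology Pool.Agent.Q77.LU
open scoped ContDiff Matrix.Norms.Frobenius

variable {N n D l : ℕ} {G : Subgroup (UU N)}

theorem mt_mul (g h : G) : mt (g * h) = mt g * mt h := rfl

theorem mt_one : mt (1 : G) = 1 := rfl

theorem mt_inv (g : G) : mt g⁻¹ = (mt g)ᴴ := rfl

theorem mt_inj {g h : G} (e : mt g = mt h) : g = h := Subtype.ext (Subtype.ext e)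

theorem mt_cont : Continuous (mt : G → Mt N) := continuous_subtype_val.comp continuous_subtype_val

theorem mt_inducing : IsInducing (mt : G → Mt N) :=
  IsInducing.subtypeVal.comp IsInducing.subtypeVal

theorem compact_UU : IsCompact (UU N : Set (Mt N)) := by
  have h1 : IsCompact (Set.pi Set.univ fun _ : Fin N => Set.pi Set.univ fun _ : Fin N =>
      Metric.closedBall (0 : ℂ) 1) :=
    isCompact_univ_pi fun _ => isCompact_univ_pi fun _ => isCompact_closedBall _ _
  refine IsCompact.of_isClosed_subset h1 ?_ ?_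
  · have h2 : (UU N : Set (Mt N)) = {A | A * star A = 1} := by
      ext A
      exact Matrix.mem_unitaryGroup_iff
    rw [h2]
    exact isClosed_eq (continuous_id.mul continuous_star) continuous_const
  · intro A hA i _ j _
    rw [mem_closedBall_zero_iff]
    exact entry_norm_bound_of_unitary hA i j

instance : CompactSpace (UU N) := isCompact_iff_compactSpace.1 compact_UU

theorem compactG (hG : IsClosed (G : Set (UU N))) : CompactSpace G := by
  have h1 : IsCompact (G : Set (UU N)) := hG.isCompact
  exact isCompact_iff_compactSpace.1 h1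

theorem sct_Mt : SecondCountableTopology (Mt N) :=
  inferInstanceAs (SecondCountableTopology (Fin N → Fin N → ℂ))

theorem sctG : SecondCountableTopology G := by
  have h0 : SecondCountableTopology (Mt N) := sct_Mt
  have h1 : SecondCountableTopology (UU N) := TopologicalSpace.Subtype.secondCountableTopology _
  exact TopologicalSpace.Subtype.secondCountableTopology _

theorem mtL_cont : Continuous (fun U : Link D l → G => fun e => mt (U e)) :=
  continuous_pi fun e => mt_cont.comp (continuous_apply e)

theorem smooth_cont [NeZero l] {F : (Link D l → G) → ℝ} (h : IsSmooth F) : Continuous F := by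
  obtain ⟨f, hf, hF⟩ := h
  have e : F = fun U => f fun e => mt (U e) := funext hF
  rw [e]
  exact hf.continuous.comp mtL_cont

/-! ### gauge and centre transformations -/

theorem gauge_gauge (γ δ : (Fin D → ZMod l) → G) (U : Link D l → G) :
    gauge γ (gauge δ U) = gauge (fun x => γ x * δ x) U := by
  funext e
  simp only [Q77.LU.gauge, _root_.mul_inv_rev, mul_assoc]

theorem gauge_one (U : Link D l → G) : gauge (fun _ => 1) U = U := by
  funext e
  simp [Q77.LU.gauge]

theorem gauge_centre {z : Fin D → G} (hz : ∀ i, z i ∈ Subgroup.center G)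
    (γ : (Fin D → ZMod l) → G) (U : Link D l → G) : gauge γ (centre z U) = centre z (gauge γ U) := by
  funext e
  simp only [Q77.LU.gauge, centre]
  split_ifs with h
  · have h1 := Subgroup.mem_center_iff.1 (hz e.2) (γ e.1)
    rw [← mul_assoc, h1]
    simp only [mul_assoc]
  · rfl

theorem centre_centre (z w : Fin D → G) (U : Link D l → G) :
    centre z (centre w U) = centre (fun i => z i * w i) U := by
  funext e
  simp only [centre]
  split_ifs with h
  · rw [mul_assoc]
  · rfl

theorem centre_one (U : Link D l → G) : centre (fun _ => 1) U = U := by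
  funext e
  simp [centre]

theorem centre_eq_one {z : Fin D → G} (hz : ∀ i, z i = 1) (U : Link D l → G) : centre z U = U := by
  have : z = fun _ => 1 := funext hz
  rw [this, centre_one]

theorem tg_def (U : Link D l → G) : tg U = gauge (pth U) U := rfl

theorem untg (U : Link D l → G) : U = gauge (fun x => (pth U x)⁻¹) (tg U) := by
  rw [tg_def, gauge_gauge]
  simp only [inv_mul_cancel]
  exact (gauge_one U).symm

theorem cont_ofFn {X M : Type} [TopologicalSpace X] [Monoid M] [TopologicalSpace M] [ContinuousMul M]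
    {k : ℕ} {f : Fin k → X → M} (h : ∀ i, Continuous (f i)) :
    Continuous fun x => (List.ofFn fun i => f i x).prod := by
  have e : (fun x => (List.ofFn fun i => f i x).prod) =
      fun x => ((List.finRange k).map fun i => f i x).prod := by
    funext x
    rw [List.ofFn_eq_map]
  rw [e]
  exact continuous_list_prod _ fun i _ => h i

theorem pth_cont (x : Fin D → ZMod l) : Continuous fun U : Link D l → G => pth U x := by
  unfold pth
  exact cont_ofFn fun i => cont_ofFn fun s => continuous_apply _

theorem tg_cont : Continuous (tg : (Link D l → G) → Link D l → G) := by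
  refine continuous_pi fun e => ?_
  have h : (fun U : Link D l → G => tg U e) =
      fun U => pth U e.1 * U e * (pth U (e.1 + unitv e.2))⁻¹ := by
    funext U
    rfl
  rw [h]
  exact ((pth_cont _).mul (continuous_apply e)).mul (pth_cont _).inv

theorem centre_cont (z : Fin D → G) : Continuous (centre z : (Link D l → G) → Link D l → G) := by
  refine continuous_pi fun e => ?_
  simp only [centre]
  split_ifs
  · exact continuous_const.mul (continuous_apply e)
  · exact continuous_apply e

theorem ext_NT (V : NT D l → G) (e : NT D l) : ext V e.1 = V e := by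
  unfold Q77.LU.ext
  rw [dif_pos e.2]

theorem ext_T (V : NT D l → G) {e : Link D l} (h : inT e) : ext V e = 1 := by
  unfold Q77.LU.ext
  rw [dif_neg (not_not.2 h)]

theorem ext_inj {V W : NT D l → G} (h : ext V = ext W) : V = W := by
  funext e
  rw [← ext_NT V e, ← ext_NT W e, h]

/-! ### the chart -/

section
variable [NeZero l] {B : LieBasis G n}

theorem lin_zero : lin B 0 = 0 := by
  unfold lin
  simp

theorem eG_zero : eG B 0 = 1 := by
  unfold eG
  have h : ∃ g : G, mt g = NormedSpace.exp (lin B 0) := ⟨1, by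
    rw [lin_zero, NormedSpace.exp_zero, mt_one]⟩
  rw [dif_pos h]
  apply mt_inj
  rw [h.choose_spec, lin_zero, NormedSpace.exp_zero, mt_one]

theorem xi_zero (dc : Dec B D l) : dc.xi 0 = 0 := by
  funext p
  simp [Dec.xi, cons]

theorem ch_zero (dc : Dec B D l) : dc.ch 0 = fun _ => 1 := by
  funext e
  unfold Dec.ch eU
  rw [xi_zero]
  exact eG_zero

theorem nx_zero {P Q : Type} [Fintype P] [Fintype Q] : nx (0 : (P → ℝ) × (Q → ℝ)) = 0 := by
  simp [nx, n2]

theorem Orb_mono {dc : Dec B D l} {r s : ℝ} (hr : 0 ≤ r) (hrs : r ≤ s) {U : Link D l → G} (h : Orb dc r U) :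
    Orb dc s U := by
  obtain ⟨γ, z, x, hz, hx, hU⟩ := h
  exact ⟨γ, z, x, hz, hx.trans_le (pow_le_pow_left₀ hr hrs 2), hU⟩

end

/-- small balls -/
theorem norm_lt_of_nx {P Q : Type} [Fintype P] [Fintype Q] {x : (P → ℝ) × (Q → ℝ)} {r : ℝ} (hr : 0 < r)
    (h : nx x < r ^ 2) : ‖x‖ < r := by
  have h1 : 0 ≤ n2 x.1 := Finset.sum_nonneg fun i _ => sq_nonneg _
  have h2 : 0 ≤ n2 x.2 := Finset.sum_nonneg fun i _ => sq_nonneg _
  unfold nx at h
  have h3 : ‖x.1‖ < r := by
    rw [pi_norm_lt_iff hr]
    intro i
    rw [Real.norm_eq_abs]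
    refine abs_lt_of_sq_lt_sq ?_ hr.le
    have : x.1 i ^ 2 ≤ n2 x.1 := Finset.single_le_sum (f := fun i => x.1 i ^ 2) (fun i _ => sq_nonneg _) (Finset.mem_univ i)
    linarith
  have h4 : ‖x.2‖ < r := by
    rw [pi_norm_lt_iff hr]
    intro i
    rw [Real.norm_eq_abs]
    refine abs_lt_of_sq_lt_sq ?_ hr.le
    have : x.2 i ^ 2 ≤ n2 x.2 := Finset.single_le_sum (f := fun i => x.2 i ^ 2) (fun i _ => sq_nonneg _) (Finset.mem_univ i)
    linarith
  rw [Prod.norm_def]
  exact max_lt h3 h4

theorem nx_small {P Q : Type} [Fintype P] [Fintype Q] {p : (P → ℝ) × (Q → ℝ) → Prop}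
    (h : ∀ᶠ x in 𝓝 (0 : (P → ℝ) × (Q → ℝ)), p x) : ∃ r : ℝ, 0 < r ∧ ∀ x, nx x < r ^ 2 → p x := by
  obtain ⟨r, hr, h1⟩ := Metric.eventually_nhds_iff.1 h
  refine ⟨r, hr, fun x hx => h1 ?_⟩
  rw [dist_zero_right]
  exact norm_lt_of_nx hr hx

end Pool.Agent.Q65.LU
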