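import Pool.Agent.Q65.LU.Basic

/-!
Project LU (helper77), job AWAY: lower bound of the energy away from the torons.
-/

set_option autoImplicit false

namespace Pool.Agent.Q65.LU

open MeasureTheory Matrix Set Filter Topology Pool.Agent.Q77.LU
open scoped ContDiff Matrix.Norms.Frobenius

theorem tsq_nonneg {ι : Type} [Fintype ι] [DecidableEq ι] (A : Matrix ι ι ℝ) : 0 ≤ tsq A := by
  unfold tsq
  split_ifs
  · exact Finset.sum_nonneg fun i _ => Real.sqrt_nonneg _
  · exact le_refl _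

/-- compactness -/
theorem away_compact {X : Type} [TopologicalSpace X] [CompactSpace X] {t z m : X → ℝ} (ht : Continuous t)
    (hz : Continuous z) (hm : Continuous m) (hm0 : ∀ x, 0 ≤ m x) {δ e0 : ℝ}
    (h : ∀ x, δ ≤ t x → m x = 0 → e0 < z x) :
    ∃ η m0 : ℝ, 0 < η ∧ 0 < m0 ∧ ∀ x, δ ≤ t x → m x ≤ m0 → e0 + 4 * η ≤ z x := by
  have hB : IsCompact {x | δ ≤ t x ∧ m x = 0} :=
    ((isClosed_le continuous_const ht).inter (isClosed_eq hm continuous_const)).isCompact
  obtain ⟨η, hη, h1⟩ : ∃ η : ℝ, 0 < η ∧ ∀ x, δ ≤ t x → m x = 0 → e0 + 4 * η < z x := by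
    rcases eq_empty_or_nonempty {x | δ ≤ t x ∧ m x = 0} with h0 | h0
    · refine ⟨1, one_pos, fun x hx1 hx2 => ?_⟩
      have : x ∈ {x | δ ≤ t x ∧ m x = 0} := ⟨hx1, hx2⟩
      rw [h0] at this
      exact absurd this (notMem_empty x)
    · obtain ⟨y, hy, hmin⟩ := hB.exists_isMinOn h0 hz.continuousOn
      have h2 := h y hy.1 hy.2
      refine ⟨(z y - e0) / 8, by linarith, fun x hx1 hx2 => ?_⟩
      have h3 : z y ≤ z x := hmin (show x ∈ {x | δ ≤ t x ∧ m x = 0} from ⟨hx1, hx2⟩)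
      linarith
  have hC : IsCompact {x | δ ≤ t x ∧ z x ≤ e0 + 4 * η} :=
    ((isClosed_le continuous_const ht).inter (isClosed_le hz continuous_const)).isCompact
  rcases eq_empty_or_nonempty {x | δ ≤ t x ∧ z x ≤ e0 + 4 * η} with h0 | h0
  · refine ⟨η, 1, hη, one_pos, fun x hx1 _ => ?_⟩
    by_contra h4
    have : x ∈ {x | δ ≤ t x ∧ z x ≤ e0 + 4 * η} := ⟨hx1, (not_le.1 h4).le⟩
    rw [h0] at this
    exact absurd this (notMem_empty x)
  · obtain ⟨y, hy, hmin⟩ := hC.exists_isMinOn h0 hm.continuousOn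
    have hpos : 0 < m y := by
      refine lt_of_le_of_ne (hm0 y) fun h5 => ?_
      have := h1 y hy.1 h5.symm
      linarith [hy.2]
    refine ⟨η, m y / 2, hη, by positivity, fun x hx1 hx2 => ?_⟩
    by_contra h4
    have h6 : m y ≤ m x := hmin (show x ∈ {x | δ ≤ t x ∧ z x ≤ e0 + 4 * η} from ⟨hx1, (not_le.1 h4).le⟩)
    linarith

theorem t_AWAY (h1 : S_LOC) (h2 : S_FLATS) (h3 : S_TSC) (h4 : S_HC) : S_AWAY := by
  intro N n D l _ G hG hD B _ _ μ _ _ δ hδ
  obtain ⟨k1, k2, k3, k4, -, -, k5, k6, -⟩ := h4 N n D l G hG B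
  have hcG : CompactSpace G := compactG hG
  have hsG : SecondCountableTopology G := sctG
  obtain ⟨z, hz⟩ : ∃ z : (Link D l → G) → ℝ, z = fun U => 1 / 2 * tsq (hess B U) := ⟨_, rfl⟩
  have hzU : ∀ U, z U = 1 / 2 * tsq (hess B U) := fun U => by rw [hz]
  have hzc : Continuous z := by
    rw [hz]
    exact continuous_const.mul ((h3 _).comp_continuous k1 k2)
  have hz0 : ∀ U, 0 ≤ z U := fun U => by rw [hzU]; have := tsq_nonneg (hess B U); linarith
  obtain ⟨e0, he0⟩ : ∃ e0, e0 = z (fun _ => 1) := ⟨_, rfl⟩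
  have he00 : 0 ≤ e0 := by rw [he0]; exact hz0 _
  have hmc : Continuous fun U : Link D l → G => magnetic U := smooth_cont k3
  obtain ⟨η, m0, hη, hm0, hA⟩ := away_compact (smooth_cont k4) hzc hmc k5 (δ := δ) (e0 := e0) (by
    intro U hU hm
    rw [he0, hzU, hzU]
    have h5 : ∃ x i a, mt (wind U x i) * B.X a * (mt (wind U x i))ᴴ ≠ B.X a := by
      by_contra h6
      push Not at h6
      have h7 : tau B U = 0 := by
        unfold tau
        rw [hm, zero_add]
        refine Finset.sum_eq_zero fun x _ => Finset.sum_eq_zero fun i _ => Finset.sum_eq_zero fun a _ => ?_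
        rw [h6 x i a, sub_self]
        simp [fro2]
      linarith
    have := h2 N n D l G hG hD B U hm h5
    linarith)
  obtain ⟨θ, hθ⟩ : ∃ θ, θ = η / (e0 + 4 * η) := ⟨_, rfl⟩
  have hd : 0 < e0 + 4 * η := by linarith
  have hθ0 : 0 < θ := by rw [hθ]; positivity
  have hθ1 : θ ≤ 1 := by rw [hθ, div_le_one hd]; linarith
  have hθe : θ * (e0 + 4 * η) = η := by rw [hθ, div_mul_cancel₀ _ hd.ne']
  obtain ⟨g1, hg1, hloc⟩ := h1 N n D l G hG B μ η hη
  obtain ⟨g2, hg2, hg2'⟩ : ∃ g2 : ℝ, 0 < g2 ∧ ∀ g : ℝ, 0 < g → g < g2 → e0 + 3 * η ≤ θ * m0 / g ^ 2 := by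
    refine ⟨Real.sqrt (θ * m0 / (e0 + 3 * η)), Real.sqrt_pos.2 (by positivity), fun g hg hgg => ?_⟩
    have h5 : g ^ 2 ≤ θ * m0 / (e0 + 3 * η) := by
      have := Real.lt_sqrt hg.le |>.1 hgg
      exact this.le
    rw [le_div_iff₀ (by positivity)]
    rw [le_div_iff₀ (by positivity)] at h5
    linarith
  refine ⟨η, min g1 g2, hη, lt_min hg1 hg2, fun g hg hgg F hF hFs => ?_⟩
  have hl := hloc g hg (hgg.trans_le (min_le_left _ _)) F hF
  have hg3 := hg2' g hg (hgg.trans_le (min_le_right _ _))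
  have hFc := smooth_cont hF
  have hint : ∀ {φ : (Link D l → G) → ℝ}, Continuous φ → Integrable φ (Measure.pi fun _ : Link D l => μ) := by
    intro φ hφ
    exact hφ.integrable_of_hasCompactSupport (HasCompactSupport.of_compactSpace φ)
  have hen : 1 / g ^ 2 * ∫ U, magnetic U * F U ^ 2 ∂(Measure.pi fun _ : Link D l => μ) ≤ energy B μ g F := by
    unfold energy
    have h6 : 0 ≤ ∑ e : Link D l, ∑ a : Fin n, ∫ U, (dlink B e a F U) ^ 2 ∂(Measure.pi fun _ : Link D l => μ) :=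
      Finset.sum_nonneg fun e _ => Finset.sum_nonneg fun a _ => integral_nonneg fun U => sq_nonneg _
    have h7 : 0 ≤ g ^ 2 / 2 * ∑ e : Link D l, ∑ a : Fin n, ∫ U, (dlink B e a F U) ^ 2 ∂(Measure.pi fun _ : Link D l => μ) := by
      positivity
    linarith
  have hz1 : 1 / 2 * tsq (hess B (fun _ : Link D l => (1 : G))) = e0 := by rw [he0, hzU]
  rw [hz1]
  have hl' : ∫ U, (z U - η) * F U ^ 2 ∂(Measure.pi fun _ : Link D l => μ) ≤ energy B μ g F := by
    simpa only [hzU] using hl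
  have i1 : Integrable (fun U => (z U - η) * F U ^ 2) (Measure.pi fun _ : Link D l => μ) :=
    hint ((hzc.sub continuous_const).mul (hFc.pow 2))
  have i2 : Integrable (fun U => magnetic U * F U ^ 2) (Measure.pi fun _ : Link D l => μ) :=
    hint (hmc.mul (hFc.pow 2))
  have i3 : Integrable (fun U => F U ^ 2) (Measure.pi fun _ : Link D l => μ) := hint (hFc.pow 2)
  have hcomb : ∫ U, ((1 - θ) * ((z U - η) * F U ^ 2) + θ / g ^ 2 * (magnetic U * F U ^ 2))
      ∂(Measure.pi fun _ : Link D l => μ) ≤ energy B μ g F := by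
    rw [integral_add (i1.const_mul _) (i2.const_mul _), integral_const_mul, integral_const_mul]
    have h8 : θ / g ^ 2 * ∫ U, magnetic U * F U ^ 2 ∂(Measure.pi fun _ : Link D l => μ) ≤ θ * energy B μ g F := by
      calc θ / g ^ 2 * ∫ U, magnetic U * F U ^ 2 ∂(Measure.pi fun _ : Link D l => μ) =
          θ * (1 / g ^ 2 * ∫ U, magnetic U * F U ^ 2 ∂(Measure.pi fun _ : Link D l => μ)) := by ring
        _ ≤ θ * energy B μ g F := mul_le_mul_of_nonneg_left hen hθ0.le
    have h9 := mul_le_mul_of_nonneg_left hl' (show 0 ≤ 1 - θ by linarith)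
    linarith
  refine le_trans ?_ hcomb
  rw [← integral_const_mul]
  refine integral_mono (i3.const_mul _) ((i1.const_mul _).add (i2.const_mul _)) fun U => ?_
  show (e0 + η) * F U ^ 2 ≤ (1 - θ) * ((z U - η) * F U ^ 2) + θ / g ^ 2 * (magnetic U * F U ^ 2)
  by_cases hFU : F U = 0
  · rw [hFU]
    simp
  · have h5 := hFs U hFU
    have h6 : e0 + η ≤ (1 - θ) * (z U - η) + θ / g ^ 2 * magnetic U := by
      rcases le_or_gt (magnetic U) m0 with h7 | h7
      · have h8 := hA U h5 h7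
        have h9 : 0 ≤ θ / g ^ 2 * magnetic U := by
          have := k5 U
          positivity
        have h10 : (1 - θ) * (e0 + 4 * η) ≤ (1 - θ) * z U := mul_le_mul_of_nonneg_left h8 (by linarith)
        nlinarith
      · have h8 : θ / g ^ 2 * m0 ≤ θ / g ^ 2 * magnetic U := mul_le_mul_of_nonneg_left h7.le (by positivity)
        have h9 : θ / g ^ 2 * m0 = θ * m0 / g ^ 2 := by ring
        have h10 : 0 ≤ (1 - θ) * z U := mul_nonneg (by linarith) (hz0 U)
        nlinarith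
    have h7 := mul_le_mul_of_nonneg_right h6 (sq_nonneg (F U))
    linarith

end Pool.Agent.Q65.LU
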