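import Pool.Agent.Q65.LU.UBasic
import Pool.Agent.Q65.LU.AWAY
import Pool.Agent.Q177.LU.SQT

/-!
Project LU (helper77), uniform version, job AWAYU: lower bound away from the torons.
-/

set_option autoImplicit false

namespace Pool.Agent.Q65.LU

open MeasureTheory Matrix Set Filter Topology Pool.Agent.Q77.LU
open scoped ContDiff Matrix.Norms.Frobenius

open scoped ComplexOrder in
theorem fro2_nn {N : ℕ} (M : Mt N) : 0 ≤ fro2 M := by
  have h := (Matrix.posSemidef_conjTranspose_mul_self M).trace_nonneg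
  exact (Complex.nonneg_iff.1 h).1

theorem ezero_nonneg {n D l : ℕ} [NeZero l] (hD : 1 ≤ D) : 0 ≤ ezero n D l := by
  unfold ezero
  have h1 : (1 : ℝ) ≤ (D : ℝ) := by exact_mod_cast hD
  refine mul_nonneg ?_ (Finset.sum_nonneg fun k _ => Real.sqrt_nonneg _)
  have : (0 : ℝ) ≤ (D : ℝ) - 1 := by linarith
  positivity

theorem ezero_le {n D l : ℕ} [NeZero l] (hD : 1 ≤ D) :
    ezero n D l ≤ (D : ℝ) * n * (1 + 4 * D) * (l : ℝ) ^ D := by
  unfold ezero
  have h1 : (1 : ℝ) ≤ (D : ℝ) := by exact_mod_cast hD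
  have h2 : ∑ k : Fin D → ZMod l,
      Real.sqrt (∑ i, 4 * Real.sin (Real.pi * ((k i).val : ℝ) / l) ^ 2) ≤
      ∑ _k : Fin D → ZMod l, (1 + 4 * (D : ℝ)) := by
    refine Finset.sum_le_sum fun k _ => ?_
    have h3 : ∑ i : Fin D, 4 * Real.sin (Real.pi * ((k i).val : ℝ) / l) ^ 2 ≤ 4 * (D : ℝ) := by
      calc ∑ i : Fin D, 4 * Real.sin (Real.pi * ((k i).val : ℝ) / l) ^ 2 ≤
          ∑ _i : Fin D, (4 : ℝ) := by
            refine Finset.sum_le_sum fun i _ => ?_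
            have := Real.sin_sq_le_one (Real.pi * ((k i).val : ℝ) / l)
            linarith
        _ = 4 * (D : ℝ) := by
            rw [Finset.sum_const, Finset.card_univ, Fintype.card_fin, nsmul_eq_mul]
            ring
    refine Real.sqrt_le_iff.2 ⟨by positivity, h3.trans ?_⟩
    nlinarith
  rw [Finset.sum_const, Finset.card_univ, Fintype.card_fun, Fintype.card_fin, ZMod.card,
    nsmul_eq_mul] at h2
  push_cast at h2
  have h4 : (0 : ℝ) ≤ ((D : ℝ) - 1) * n / 2 := by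
    have : (0 : ℝ) ≤ (D : ℝ) - 1 := by linarith
    positivity
  calc ((D : ℝ) - 1) * n / 2 * ∑ k : Fin D → ZMod l,
      Real.sqrt (∑ i, 4 * Real.sin (Real.pi * ((k i).val : ℝ) / l) ^ 2) ≤
      ((D : ℝ) - 1) * n / 2 * ((l : ℝ) ^ D * (1 + 4 * (D : ℝ))) :=
        mul_le_mul_of_nonneg_left h2 h4
    _ ≤ (D * n) * ((l : ℝ) ^ D * (1 + 4 * (D : ℝ))) := by
        refine mul_le_mul_of_nonneg_right ?_ (by positivity)
        have : (0 : ℝ) ≤ (n : ℝ) := Nat.cast_nonneg _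
        nlinarith
    _ = (D : ℝ) * n * (1 + 4 * D) * (l : ℝ) ^ D := by ring

/-- a simple form of Young's inequality -/
theorem young4 {x T c : ℝ} (hx : 0 ≤ x) (hT : 0 < T) (hc : 0 ≤ c) (h : 2 * c * T ^ 2 ≤ 1) :
    c * x ≤ x ^ 4 / (2 * T ^ 5) + c * T := by
  rcases le_or_gt x T with h1 | h1
  · have h2 : c * x ≤ c * T := mul_le_mul_of_nonneg_left h1 hc
    have h3 : 0 ≤ x ^ 4 / (2 * T ^ 5) := by positivity
    linarith
  · have h2 : c * x ≤ x ^ 4 / (2 * T ^ 5) := by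
      rw [le_div_iff₀ (by positivity)]
      have h3 : T ^ 3 ≤ x ^ 3 := pow_le_pow_left₀ hT.le h1.le 3
      calc c * x * (2 * T ^ 5) = (2 * c * T ^ 2) * (x * T ^ 3) := by ring
        _ ≤ 1 * (x * T ^ 3) := mul_le_mul_of_nonneg_right h (by positivity)
        _ = x * T ^ 3 := one_mul _
        _ ≤ x * x ^ 3 := mul_le_mul_of_nonneg_left h3 hx
        _ = x ^ 4 := by ring
    have h3 : 0 ≤ c * T := mul_nonneg hc hT.le
    linarith

/-- the pointwise inequality -/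
theorem away_pt {z m w e0 c M1 Λ Y δ T g M : ℝ} (hΛ : 1 ≤ Λ) (hY : 1 ≤ Y) (hm : 0 ≤ m)
    (_hw : 0 ≤ w) (he0 : 0 ≤ e0) (he0Y : e0 ≤ Y) (hc1 : 1 ≤ c) (hcY : c ≤ Y) (hM10 : 0 ≤ M1)
    (hM1Y : M1 ≤ Y) (hδ : Λ⁻¹ ≤ δ) (hδ1 : δ ≤ 1) (hT : 0 < T) (hTS : T ≤ (32 * Λ * Y ^ 2)⁻¹)
    (hg : g = T ^ 5) (hM : 32 * Λ * Y ^ 2 ≤ M) (hmw : δ ≤ m + w)
    (hz : e0 + c⁻¹ * Real.sqrt (min 1 w) - c * m ^ (1 / 4 : ℝ) ≤ z) :
    e0 + M⁻¹ ≤ (1 - g) * (z - M1 * T) + g / g ^ 2 * m := by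
  have hS1 : 32 ≤ 32 * Λ * Y ^ 2 := by
    have h1 : 1 ≤ Y ^ 2 := one_le_pow₀ hY
    have h2 : 1 ≤ Λ * Y ^ 2 := one_le_mul_of_one_le_of_one_le hΛ h1
    linarith
  have hS0 : (0 : ℝ) < 32 * Λ * Y ^ 2 := by linarith
  have hT32 : T ≤ 1 / 32 := by
    refine hTS.trans ?_
    rw [inv_le_comm₀ hS0 (by norm_num)]
    norm_num
    linarith
  have hTY : T * (32 * Λ * Y ^ 2) ≤ 1 := by
    have := mul_le_mul_of_nonneg_right hTS hS0.le
    rwa [inv_mul_cancel₀ hS0.ne'] at this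
  have hgT : g ≤ T := by
    rw [hg]
    calc T ^ 5 = T ^ 4 * T := by ring
      _ ≤ 1 * T := mul_le_mul_of_nonneg_right (pow_le_one₀ hT.le (by linarith)) hT.le
      _ = T := one_mul T
  have hg0 : 0 < g := by rw [hg]; positivity
  obtain ⟨x, hx⟩ : ∃ x, x = m ^ (1 / 4 : ℝ) := ⟨_, rfl⟩
  have hx0 : 0 ≤ x := by rw [hx]; positivity
  have hx4 : x ^ 4 = m := by
    rw [hx, ← Real.rpow_natCast, ← Real.rpow_mul hm]
    norm_num
  have hgm : g / g ^ 2 * m = x ^ 4 / (2 * T ^ 5) + m / (2 * g) := by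
    rw [hx4, ← hg]
    field_simp
    ring
  have hcT : 2 * c * T ^ 2 ≤ 1 := by
    have h1 : c * T ≤ Y * T := mul_le_mul_of_nonneg_right hcY hT.le
    have h2 : Y * T ≤ 1 := by
      have h3 : Y ≤ 32 * Λ * Y ^ 2 := by nlinarith [mul_pos (lt_of_lt_of_le one_pos hΛ) (lt_of_lt_of_le one_pos hY), one_le_mul_of_one_le_of_one_le hΛ hY]
      have h4 : Y * T ≤ 32 * Λ * Y ^ 2 * T := mul_le_mul_of_nonneg_right h3 hT.le
      linarith
    have h5 : c * T * T ≤ 1 * T := mul_le_mul_of_nonneg_right (h1.trans h2) hT.le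
    nlinarith
  have hyoung := young4 hx0 hT (by linarith : 0 ≤ c) hcT
  rw [← hx] at hz
  obtain ⟨s, hs⟩ : ∃ s, s = Real.sqrt (min 1 w) := ⟨_, rfl⟩
  have hs0 : 0 ≤ s := by rw [hs]; exact Real.sqrt_nonneg _
  rw [← hs] at hz
  -- losses
  have hloss : g * e0 + c * T + M1 * T ≤ 3 * Y * T := by
    have h1 : g * e0 ≤ T * Y := mul_le_mul hgT he0Y he0 hT.le
    have h2 : c * T ≤ Y * T := mul_le_mul_of_nonneg_right hcY hT.le
    have h3 : M1 * T ≤ Y * T := mul_le_mul_of_nonneg_right hM1Y hT.le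
    linarith
  have hYT : 3 * Y * T ≤ 3 / (32 * Λ * Y) := by
    rw [le_div_iff₀ (by positivity)]
    calc 3 * Y * T * (32 * Λ * Y) = 3 * (T * (32 * Λ * Y ^ 2)) := by ring
      _ ≤ 3 := by linarith
  have hMi : M⁻¹ ≤ 1 / (32 * Λ * Y) := by
    rw [← one_div]
    refine one_div_le_one_div_of_le (by positivity) (le_trans ?_ hM)
    have h1 : Y ≤ Y ^ 2 := by nlinarith
    exact mul_le_mul_of_nonneg_left h1 (by positivity)
  have h1g : 0 ≤ 1 - g := by linarith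
  have hcs : 0 ≤ c⁻¹ * s := by positivity
  have hmain : (1 - g) * (z - M1 * T) + g / g ^ 2 * m ≥
      e0 + (1 - g) * (c⁻¹ * s) - 3 * Y * T + m / (2 * g) := by
    have h1 := mul_le_mul_of_nonneg_left hz h1g
    rw [hgm]
    have h2 : (1 - g) * (c * x) ≤ c * x := by
      have : 0 ≤ c * x := by positivity
      nlinarith
    have h3 : (1 - g) * (M1 * T) ≤ M1 * T := by
      have : 0 ≤ M1 * T := by positivity
      nlinarith
    nlinarith
  refine le_trans ?_ hmain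
  rcases le_or_gt (δ / 2) m with hcase | hcase
  · -- large magnetic energy
    have h1 : 1 ≤ m / (2 * g) := by
      rw [le_div_iff₀ (by positivity), one_mul]
      have h2 : Λ⁻¹ / 2 ≤ m := by linarith
      refine le_trans ?_ h2
      have h3 : g ≤ (32 * Λ)⁻¹ := by
        refine hgT.trans (hTS.trans ?_)
        refine inv_anti₀ (by positivity) ?_
        have : 1 ≤ Y ^ 2 := one_le_pow₀ hY
        have h4 : 32 * Λ * 1 ≤ 32 * Λ * Y ^ 2 := mul_le_mul_of_nonneg_left this (by positivity)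
        linarith
      have h4 : 2 * (32 * Λ)⁻¹ ≤ Λ⁻¹ / 2 := by
        rw [mul_inv]
        have : 0 < Λ⁻¹ := by positivity
        linarith
      linarith
    have h2 : 3 / (32 * Λ * Y) + 1 / (32 * Λ * Y) ≤ 1 := by
      rw [← add_div, div_le_one (by positivity)]
      have : 1 ≤ Λ * Y := one_le_mul_of_one_le_of_one_le hΛ hY
      nlinarith
    have h3 : 0 ≤ (1 - g) * (c⁻¹ * s) := mul_nonneg h1g hcs
    linarith
  · have hw1 : δ / 2 ≤ w := by linarith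
    have hδ0 : 0 < δ := lt_of_lt_of_le (by positivity) hδ
    have hmin : δ / 2 ≤ min 1 w := le_min (by linarith) hw1
    have hsδ : δ / 2 ≤ s := by
      rw [hs]
      refine Real.le_sqrt_of_sq_le (le_trans ?_ hmin)
      nlinarith
    have h1 : Λ⁻¹ / 2 ≤ s := by linarith
    have h2 : Y⁻¹ ≤ c⁻¹ := inv_anti₀ (by linarith) hcY
    have h3 : Y⁻¹ * (Λ⁻¹ / 2) ≤ c⁻¹ * s := mul_le_mul h2 h1 (by positivity) (by positivity)
    have h4 : (1 / 2) * (Y⁻¹ * (Λ⁻¹ / 2)) ≤ (1 - g) * (c⁻¹ * s) :=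
      mul_le_mul (by linarith) h3 (by positivity) h1g
    have h5 : (1 / 2) * (Y⁻¹ * (Λ⁻¹ / 2)) = 8 / (32 * Λ * Y) := by
      field_simp
      ring
    have h6 : 0 ≤ m / (2 * g) := by positivity
    have h7 : 3 / (32 * Λ * Y) + 1 / (32 * Λ * Y) ≤ 8 / (32 * Λ * Y) := by
      rw [← add_div]
      exact div_le_div_of_nonneg_right (by norm_num) (by positivity)
    linarith

theorem t_AWAYU (h1 : S_LOCU) (h2 : S_TSQU) (h3 : S_EZ) (h4 : S_HC) : S_AWAYU := by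
  intro N n D G hG hD hn B _ _ μ _ _
  obtain ⟨p1, C1, hC1, hloc⟩ := h1 N n D G hG B μ
  obtain ⟨p2, C2, hC2, htsq⟩ := h2 N n D G hG B hD hn
  -- the size
  obtain ⟨q, hq⟩ : ∃ q : ℕ, q = p1 + p2 + D := ⟨_, rfl⟩
  obtain ⟨C3, hC3⟩ : ∃ C3 : ℝ, C3 = C1 + C2 + (D : ℝ) * n * (1 + 4 * D) := ⟨_, rfl⟩
  have hDn : (0 : ℝ) ≤ (D : ℝ) * n * (1 + 4 * D) := by positivity
  have hC31 : 1 ≤ C3 := by rw [hC3]; linarith
  refine ⟨5 + 10 * q, 32 ^ 5 * C3 ^ 10, ?_, ?_⟩
  · have : 1 ≤ C3 ^ 10 := one_le_pow₀ hC31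
    nlinarith
  intro l _ δ Λ M hlΛ hδ hδ1 hM g hg hgM F hF hFs
  have hcG : CompactSpace G := compactG hG
  have hsG : SecondCountableTopology G := sctG
  obtain ⟨k1, k2, k3, k4, -, -, k5, k6, -⟩ := h4 N n D l G hG B
  have hl1 : (1 : ℝ) ≤ (l : ℝ) := by exact_mod_cast Nat.one_le_iff_ne_zero.2 (NeZero.ne l)
  have hΛ : 1 ≤ Λ := hl1.trans hlΛ
  have hΛ0 : 0 < Λ := by linarith
  obtain ⟨Y, hY⟩ : ∃ Y : ℝ, Y = C3 * Λ ^ q := ⟨_, rfl⟩
  have hΛq : 1 ≤ Λ ^ q := one_le_pow₀ hΛ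
  have hY1 : 1 ≤ Y := by rw [hY]; exact one_le_mul_of_one_le_of_one_le hC31 hΛq
  have hpow : ∀ (C' : ℝ) (p : ℕ), 0 ≤ C' → C' ≤ C3 → p ≤ q → C' * (l : ℝ) ^ p ≤ Y := by
    intro C' p h0 hC' hp
    rw [hY]
    refine mul_le_mul hC' ?_ (by positivity) (by linarith)
    calc (l : ℝ) ^ p ≤ Λ ^ p := pow_le_pow_left₀ (by linarith) hlΛ p
      _ ≤ Λ ^ q := pow_le_pow_right₀ hΛ hp
  have hM1Y : C1 * (l : ℝ) ^ p1 ≤ Y := hpow C1 p1 (by linarith) (by rw [hC3]; linarith) (by omega)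
  have hcY : C2 * (l : ℝ) ^ p2 ≤ Y := hpow C2 p2 (by linarith) (by rw [hC3]; linarith) (by omega)
  have heY : ezero n D l ≤ Y := (ezero_le (by omega)).trans
    (hpow _ D hDn (by rw [hC3]; linarith) (by omega))
  obtain ⟨S, hS⟩ : ∃ S : ℝ, S = 32 * Λ * Y ^ 2 := ⟨_, rfl⟩
  have hMS : M = S ^ 5 := by
    rw [hM, hS, hY]
    ring
  have hS1 : 1 ≤ S := by
    have e1 : 1 ≤ Y ^ 2 := one_le_pow₀ hY1
    have e2 : 1 ≤ Λ * Y ^ 2 := one_le_mul_of_one_le_of_one_le hΛ e1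
    rw [hS]
    linarith
  have hS0 : 0 < S := by linarith
  have hSM : S ≤ M := by
    rw [hMS]
    calc S = S * 1 := (mul_one S).symm
      _ ≤ S * S ^ 4 := mul_le_mul_of_nonneg_left (one_le_pow₀ hS1) hS0.le
      _ = S ^ 5 := by ring
  have hYS : Y ≤ S := by
    rw [hS]
    nlinarith [one_le_mul_of_one_le_of_one_le hΛ hY1]
  -- the fifth root of `g`
  obtain ⟨T, hT⟩ : ∃ T : ℝ, T = g ^ (1 / 5 : ℝ) := ⟨_, rfl⟩
  have hT0 : 0 < T := by rw [hT]; positivity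
  have hgT : g = T ^ 5 := by
    rw [hT, ← Real.rpow_natCast, ← Real.rpow_mul hg.le]
    norm_num
  have hTS : T ≤ S⁻¹ := by
    have e1 : T ^ 5 ≤ (S⁻¹) ^ 5 := by
      rw [← hgT, inv_pow, ← hMS]
      exact hgM
    exact le_of_pow_le_pow_left₀ (by norm_num) (by positivity) e1
  have hgM1 : g ≤ (C1 * (l : ℝ) ^ p1)⁻¹ := by
    refine hgM.trans (inv_anti₀ ?_ (hM1Y.trans (hYS.trans hSM)))
    have : (0 : ℝ) < C1 := by linarith
    positivity
  have hl := hloc l _ rfl g hg hgM1 F hF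
  obtain ⟨M1, hM1⟩ : ∃ M1, M1 = C1 * (l : ℝ) ^ p1 := ⟨_, rfl⟩
  obtain ⟨c, hc⟩ : ∃ c, c = C2 * (l : ℝ) ^ p2 := ⟨_, rfl⟩
  rw [← hM1, ← hT] at hl
  rw [← hM1] at hM1Y
  rw [← hc] at hcY
  have hM10 : 0 ≤ M1 := by
    rw [hM1]
    have : (0 : ℝ) < C1 := by linarith
    positivity
  have hc1 : 1 ≤ c := by rw [hc]; exact one_le_mul_of_one_le_of_one_le hC2 (pow_l p2)
  obtain ⟨z, hz⟩ : ∃ z : (Link D l → G) → ℝ, z = fun U => 1 / 2 * tsq (hess B U) := ⟨_, rfl⟩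
  have hzU : ∀ U, z U = 1 / 2 * tsq (hess B U) := fun U => by rw [hz]
  have hzc : Continuous z := by
    rw [hz]
    exact continuous_const.mul ((Pool.Agent.Q177.LU.t_TSC _).comp_continuous k1 k2)
  have hmc : Continuous fun U : Link D l → G => magnetic U := smooth_cont k3
  have hFc := smooth_cont hF
  have hint : ∀ {φ : (Link D l → G) → ℝ}, Continuous φ →
      Integrable φ (Measure.pi fun _ : Link D l => μ) := by
    intro φ hφ
    exact hφ.integrable_of_hasCompactSupport (HasCompactSupport.of_compactSpace φ)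
  have hen : 1 / g ^ 2 * ∫ U, magnetic U * F U ^ 2 ∂(Measure.pi fun _ : Link D l => μ) ≤
      energy B μ g F := by
    unfold energy
    have h6 : 0 ≤ ∑ e : Link D l, ∑ a : Fin n,
        ∫ U, (dlink B e a F U) ^ 2 ∂(Measure.pi fun _ : Link D l => μ) :=
      Finset.sum_nonneg fun e _ => Finset.sum_nonneg fun a _ =>
        integral_nonneg fun U => sq_nonneg _
    have h7 : 0 ≤ g ^ 2 / 2 * ∑ e : Link D l, ∑ a : Fin n,
        ∫ U, (dlink B e a F U) ^ 2 ∂(Measure.pi fun _ : Link D l => μ) := by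
      positivity
    linarith
  rw [h3 N n D l G hG B]
  have hl' : ∫ U, (z U - M1 * T) * F U ^ 2 ∂(Measure.pi fun _ : Link D l => μ) ≤
      energy B μ g F := by
    simpa only [hzU] using hl
  have i1 : Integrable (fun U => (z U - M1 * T) * F U ^ 2)
      (Measure.pi fun _ : Link D l => μ) :=
    hint ((hzc.sub continuous_const).mul (hFc.pow 2))
  have i2 : Integrable (fun U => magnetic U * F U ^ 2) (Measure.pi fun _ : Link D l => μ) :=
    hint (hmc.mul (hFc.pow 2))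
  have i3 : Integrable (fun U => F U ^ 2) (Measure.pi fun _ : Link D l => μ) := hint (hFc.pow 2)
  have hg1 : g ≤ 1 := by
    refine hgM.trans (inv_le_one_of_one_le₀ ?_)
    exact hS1.trans hSM
  have hcomb : ∫ U, ((1 - g) * ((z U - M1 * T) * F U ^ 2) + g / g ^ 2 * (magnetic U * F U ^ 2))
      ∂(Measure.pi fun _ : Link D l => μ) ≤ energy B μ g F := by
    rw [integral_add (i1.const_mul _) (i2.const_mul _), integral_const_mul, integral_const_mul]
    have h8 : g / g ^ 2 * ∫ U, magnetic U * F U ^ 2 ∂(Measure.pi fun _ : Link D l => μ) ≤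
        g * energy B μ g F := by
      calc g / g ^ 2 * ∫ U, magnetic U * F U ^ 2 ∂(Measure.pi fun _ : Link D l => μ) =
          g * (1 / g ^ 2 * ∫ U, magnetic U * F U ^ 2 ∂(Measure.pi fun _ : Link D l => μ)) := by
            ring
        _ ≤ g * energy B μ g F := mul_le_mul_of_nonneg_left hen hg.le
    have h9 := mul_le_mul_of_nonneg_left hl' (show 0 ≤ 1 - g by linarith)
    linarith
  refine le_trans ?_ hcomb
  rw [← integral_const_mul]
  refine integral_mono (i3.const_mul _) ((i1.const_mul _).add (i2.const_mul _)) fun U => ?_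
  show (ezero n D l + M⁻¹) * F U ^ 2 ≤
    (1 - g) * ((z U - M1 * T) * F U ^ 2) + g / g ^ 2 * (magnetic U * F U ^ 2)
  by_cases hFU : F U = 0
  · rw [hFU]
    simp
  · have h5 := hFs U hFU
    have hw0 : 0 ≤ tauW B U := by
      unfold tauW
      refine Finset.sum_nonneg fun x _ => Finset.sum_nonneg fun i _ =>
        Finset.sum_nonneg fun a _ => ?_
      exact fro2_nn _
    have htau : tau B U = magnetic U + tauW B U := by
      unfold tau tauW
      rfl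
    rw [htau] at h5
    have h6 : ezero n D l + M⁻¹ ≤ (1 - g) * (z U - M1 * T) + g / g ^ 2 * magnetic U := by
      refine away_pt (w := tauW B U) hΛ hY1 (k5 U) hw0 (ezero_nonneg (by omega)) heY hc1 hcY
        hM10 hM1Y hδ hδ1 hT0 (by rw [← hS]; exact hTS) hgT (by rw [← hS]; exact hSM) h5 ?_
      have h7 := htsq l U
      rw [← hc] at h7
      rw [hzU]
      exact h7
    have h7 := mul_le_mul_of_nonneg_right h6 (sq_nonneg (F U))
    linarith

end Pool.Agent.Q65.LU
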