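import Pool.Agent.Q65.LU.UNIQ

/-!
Project LU (helper77), job LIFT: lifting functions from the chart.
-/

set_option autoImplicit false

namespace Pool.Agent.Q65.LU

open MeasureTheory Matrix Set Filter Topology Pool.Agent.Q77.LU
open scoped ContDiff Matrix.Norms.Frobenius Manifold

/-- smooth Urysohn function -/
theorem urysohn {E : Type} [NormedAddCommGroup E] [NormedSpace ℝ E] [FiniteDimensional ℝ E]
    {s t : Set E} (hs : IsClosed s) (ht : IsClosed t) (hd : Disjoint s t) :
    ∃ χ : E → ℝ, ContDiff ℝ ∞ χ ∧ (∀ x ∈ s, χ x = 0) ∧ ∀ x ∈ t, χ x = 1 := by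
  have : ProperSpace E := FiniteDimensional.proper ℝ E
  obtain ⟨f, h1, h2, -⟩ := exists_contMDiffMap_zero_one_of_isClosed 𝓘(ℝ, E) hs ht hd (n := ⊤)
  exact ⟨f, contMDiff_iff_contDiff.1 f.contMDiff, fun x hx => h1 hx, fun x hx => h2 hx⟩

section smooth
variable {N D l : ℕ}

theorem cd_ofFn {E : Type} [NormedAddCommGroup E] [NormedSpace ℝ E] {k : ℕ} {f : Fin k → E → Mt N}
    (h : ∀ i, ContDiff ℝ ∞ (f i)) : ContDiff ℝ ∞ fun x => (List.ofFn fun i => f i x).prod := by
  induction k with
  | zero => simpa using contDiff_const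
  | succ k ih =>
    simp only [List.ofFn_succ, List.prod_cons]
    exact (h 0).mul (ih fun i => h i.succ)

/-- transport in the matrices -/
noncomputable def pthM (M : Link D l → Mt N) (x : Fin D → ZMod l) : Mt N :=
  (List.ofFn fun i : Fin D => (List.ofFn fun s : Fin (x i).val =>
    M (fun j => if j < i then x j else if j = i then ((s : ℕ) : ZMod l) else 0, i)).prod).prod

theorem mt_prod {G : Subgroup (UU N)} {k : ℕ} (f : Fin k → G) :
    mt (List.ofFn f).prod = (List.ofFn fun i => mt (f i)).prod := by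
  induction k with
  | zero => simp [mt_one]
  | succ k ih =>
    simp only [List.ofFn_succ, List.prod_cons]
    rw [mt_mul, ih]

theorem mt_pth {G : Subgroup (UU N)} (U : Link D l → G) (x : Fin D → ZMod l) :
    mt (pth U x) = pthM (fun e => mt (U e)) x := by
  unfold pth pthM
  rw [mt_prod]
  congr 2
  funext i
  rw [mt_prod]

/-- tree gauge in the matrices -/
noncomputable def tgM (M : Link D l → Mt N) : Link D l → Mt N :=
  fun e => pthM M e.1 * M e * (pthM M (e.1 + unitv e.2))ᴴ

theorem mt_tg {G : Subgroup (UU N)} (U : Link D l → G) (e : Link D l) :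
    mt (tg U e) = tgM (fun e => mt (U e)) e := by
  unfold tgM
  rw [← mt_pth, ← mt_pth, ← mt_inv, ← mt_mul, ← mt_mul]
  rfl

theorem cd_conj {E : Type} [NormedAddCommGroup E] [NormedSpace ℝ E] {f : E → Mt N}
    (h : ContDiff ℝ ∞ f) : ContDiff ℝ ∞ fun x => (f x)ᴴ :=
  (LinearMap.toContinuousLinearMap (Matrix.conjTransposeLinearEquiv (Fin N) (Fin N) ℝ ℂ).toLinearMap).contDiff.comp h

end smooth

section
variable {N n D l : ℕ} {G : Subgroup (UU N)} [NeZero l] {B : LieBasis G n}

theorem th_sg (h4 : S_TGA) (h6 : S_SYMM) (hG : IsClosed (G : Set (UU N))) (dc : Dec B D l) (h : G)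
    (x : (Fin D × Fin n → ℝ) × (Fin dc.M → ℝ)) (e : NT D l) :
    dc.th (dc.sg h x) e = h * dc.th x e * h⁻¹ := by
  have e1 := congrFun (tg_sg h4 h6 hG dc h x) e.1
  exact e1

theorem nx_ball_compact {P Q : Type} [Fintype P] [Fintype Q] (ρ : ℝ) (hρ : 0 < ρ) :
    IsCompact {x : (P → ℝ) × (Q → ℝ) | nx x ≤ ρ ^ 2} := by
  refine Metric.isCompact_of_isClosed_isBounded (isClosed_le nx_cont continuous_const) ?_
  refine (Metric.isBounded_closedBall (x := (0 : (P → ℝ) × (Q → ℝ))) (r := 2 * ρ)).subset ?_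
  intro x hx
  rw [mem_closedBall_zero_iff]
  refine (norm_lt_of_nx (by positivity) (lt_of_le_of_lt hx ?_)).le
  nlinarith [sq_pos_of_pos hρ]

end

theorem t_LIFT (h1 : S_THD) (h2 : S_INVF) (h3 : S_UNIQ) (h4 : S_TGA) (h5 : S_CARD) (h6 : S_SYMM)
    (h7 : S_FINC) : S_LIFT := by
  intro N n D l _ G hG B hNC dc
  have hfin := h7 N n G hG B hNC
  have hcG : CompactSpace G := compactG hG
  obtain ⟨hth0, hthS, hthD, hext⟩ := h1 N n D l G hG B dc
  obtain ⟨r1, hr1, Ξ, hΞ, hinv, hopen⟩ := h2 N n G hG B (Fin D × Fin n) (Fin dc.M) (NT D l)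
    (dim_eq h5 dc) dc.th hthS hthD
  obtain ⟨r2, hr2, huniq, -⟩ := h3 N n D l G hG B hNC dc
  have hc := th_cont h1 hG dc
  refine ⟨min r1 r2, lt_min hr1 hr2, fun ρ hρ hρr f hf hfs hfi => ?_⟩
  set r := min r1 r2 with hr
  have hrp : 0 < r := lt_min hr1 hr2
  have hρ1 : ρ ^ 2 < r ^ 2 := pow_lt_pow_left₀ hρr hρ.le two_ne_zero
  have hle1 : r ^ 2 ≤ r1 ^ 2 := pow_le_pow_left₀ hrp.le (min_le_left _ _) 2
  have hle2 : r ^ 2 ≤ r2 ^ 2 := pow_le_pow_left₀ hrp.le (min_le_right _ _) 2
  -- the matrices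
  have hmi : Continuous (fun V : NT D l → G => fun e => mt (V e)) :=
    continuous_pi fun e => mt_cont.comp (continuous_apply e)
  have hinj : ∀ V W : NT D l → G, (fun e => mt (V e)) = (fun e => mt (W e)) → V = W := by
    intro V W h
    funext e
    exact mt_inj (congrFun h e)
  have hK : IsClosed ((fun V : NT D l → G => fun e => mt (V e)) '' (dc.th '' {x | nx x ≤ ρ ^ 2})) :=
    (((nx_ball_compact ρ hρ).image hc).image hmi).isClosed
  have hC : IsClosed ((fun V : NT D l → G => fun e => mt (V e)) '' (dc.th '' {x | nx x < r ^ 2})ᶜ) := by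
    have h8 : IsClosed ((dc.th '' {x | nx x < r ^ 2})ᶜ) :=
      (hopen r hrp (min_le_left _ _)).isClosed_compl
    exact (h8.isCompact.image hmi).isClosed
  have hd : Disjoint ((fun V : NT D l → G => fun e => mt (V e)) '' (dc.th '' {x | nx x < r ^ 2})ᶜ)
      ((fun V : NT D l → G => fun e => mt (V e)) '' (dc.th '' {x | nx x ≤ ρ ^ 2})) := by
    rw [Set.disjoint_left]
    rintro _ ⟨V, hV, rfl⟩ ⟨W, ⟨x, hx, rfl⟩, hW⟩
    apply hV
    rw [← hinj _ _ hW]
    exact ⟨x, lt_of_le_of_lt hx hρ1, rfl⟩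
  obtain ⟨χ, hχ, hχ0, hχ1⟩ := urysohn hC hK hd
  set Q : (NT D l → Mt N) → ℝ := fun M => f (Ξ M) * χ M with hQ
  have hQs : ContDiff ℝ ∞ Q := (hf.comp hΞ).mul hχ
  have a1 : ∀ x, nx x < r ^ 2 → Q (fun e => mt (dc.th x e)) = f x := by
    intro x hx
    rw [hQ]
    simp only
    rw [hinv x (hx.trans_le hle1)]
    by_cases h8 : f x = 0
    · rw [h8, zero_mul]
    · rw [hχ1 _ ⟨dc.th x, ⟨x, (hfs x h8).le, rfl⟩, rfl⟩, mul_one]
  have a2 : ∀ V : NT D l → G, V ∉ dc.th '' {x | nx x < r ^ 2} → Q (fun e => mt (V e)) = 0 := by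
    intro V hV
    rw [hQ]
    simp only
    rw [hχ0 _ ⟨V, hV, rfl⟩, mul_zero]
  have a3 : ∀ (h : G) (V : NT D l → G), Q (fun e => mt (h * V e * h⁻¹)) = Q (fun e => mt (V e)) := by
    intro h V
    by_cases hV : V ∈ dc.th '' {x | nx x < r ^ 2}
    · obtain ⟨x, hx, rfl⟩ := hV
      have e1 : (fun e : NT D l => mt (h * dc.th x e * h⁻¹)) = fun e => mt (dc.th (dc.sg h x) e) := by
        funext e
        rw [th_sg h4 h6 hG]
      have h9 : nx (dc.sg h x) < r ^ 2 := by rw [nx_sg h6 hG]; exact hx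
      rw [e1, a1 _ h9, a1 _ hx, hfi]
    · have h9 : (fun e : NT D l => h * V e * h⁻¹) ∉ dc.th '' {x | nx x < r ^ 2} := by
        rintro ⟨x, hx, he⟩
        apply hV
        refine ⟨dc.sg h⁻¹ x, ?_, ?_⟩
        · change nx (dc.sg h⁻¹ x) < r ^ 2
          rw [nx_sg h6 hG]
          exact hx
        · funext e
          rw [th_sg h4 h6 hG, congrFun he e]
          group
      rw [a2 _ h9, a2 _ hV]
  have hft : Fintype (Fin D → Subgroup.center G) := Fintype.ofFinite _
  have hzc : ∀ (z : Fin D → Subgroup.center G) i, ((z i : G)) ∈ Subgroup.center G := fun z i => (z i).2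
  set F : (Link D l → G) → ℝ := fun U => ∑ z : Fin D → Subgroup.center G,
    Q (fun e : NT D l => mt (centre (fun i => (z i : G)) (tg U) e.1)) with hF
  refine ⟨F, ?_, ?_, ?_, ?_, ?_⟩
  · -- smooth
    refine ⟨fun M => ∑ z : Fin D → Subgroup.center G, Q (fun e : NT D l =>
      if e.1.1 e.1.2 = -1 then mt ((z e.1.2 : G)) * tgM M e.1 else tgM M e.1), ?_, ?_⟩
    · refine ContDiff.sum fun z _ => hQs.comp ?_
      refine contDiff_pi.2 fun e => ?_
      have h8 : ContDiff ℝ ∞ fun M : Link D l → Mt N => tgM M e.1 := by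
        have h9 : ∀ x : Fin D → ZMod l, ContDiff ℝ ∞ fun M : Link D l → Mt N => pthM M x := by
          intro x
          unfold pthM
          exact cd_ofFn fun i => cd_ofFn fun s => contDiff_apply _ _ _
        unfold tgM
        exact ((h9 _).mul (contDiff_apply _ _ _)).mul (cd_conj (h9 _))
      by_cases h9 : e.1.1 e.1.2 = -1
      · simp only [if_pos h9]
        exact contDiff_const.mul h8
      · simp only [if_neg h9]
        exact h8
    · intro U
      rw [hF]
      simp only
      refine Finset.sum_congr rfl fun z _ => ?_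
      congr 1
      funext e
      unfold centre
      split_ifs
      · rw [mt_mul, mt_tg]
      · rw [mt_tg]
  · -- gauge invariant
    intro γ U
    rw [hF]
    simp only
    refine Finset.sum_congr rfl fun z _ => ?_
    rw [(h4 N D l G U).2.1 γ, ← gauge_centre (hzc z)]
    exact a3 (γ 0) (fun e => centre (fun i => (z i : G)) (tg U) e.1)
  · -- centre invariant
    intro w hw U
    rw [hF]
    simp only
    rw [(h4 N D l G U).2.2.1 w hw]
    refine Fintype.sum_equiv (Equiv.mulRight fun i => (⟨w i, hw i⟩ : Subgroup.center G)) _ _ ?_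
    intro z
    congr 1
    funext e
    rw [centre_centre]
    rfl
  · -- values in the chart
    intro x hx
    rw [hF]
    simp only
    rw [Finset.sum_eq_single (fun _ => (1 : Subgroup.center G))]
    · have e1 : (fun e : NT D l => mt (centre (fun i => (((fun _ => (1 : Subgroup.center G)) : Fin D → Subgroup.center G) i : G))
          (tg (dc.ch x)) e.1)) = fun e => mt (dc.th x e) := by
        funext e
        exact congrArg Q77.LU.mt (congrFun (centre_eq_one (z := fun _ => (1 : G)) (fun i => rfl)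
          (tg (dc.ch x))) e.1)
      rw [e1]
      exact a1 x hx
    · intro z _ hz
      apply a2 (fun e : NT D l => centre (fun i => (z i : G)) (tg (dc.ch x)) e.1)
      rintro ⟨y, hy, he⟩
      apply hz
      have e2 := eq_ext h1 h4 hG dc (z := fun i => (z i : G)) (U := dc.ch x) (x := y)
        (fun e => (congrFun he e).symm)
      have e3 : dc.ch y = gauge (fun v => (pth (dc.ch y) v)⁻¹ * pth (dc.ch x) v)
          (centre (fun i => (z i : G)) (dc.ch x)) := by
        rw [← gauge_gauge, gauge_centre (hzc z)]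
        change dc.ch y = gauge _ (centre (fun i => (z i : G)) (tg (dc.ch x)))
        rw [e2]
        exact untg _
      have e4 := (huniq _ _ y x (hzc z) (lt_of_lt_of_le hy hle2) (lt_of_lt_of_le hx hle2) e3).1
      funext i
      exact Subtype.ext (e4 i)
    · intro h
      exact absurd (Finset.mem_univ _) h
  · -- support
    intro U hU
    rw [hF] at hU
    obtain ⟨z, -, hz⟩ := Finset.exists_ne_zero_of_sum_ne_zero hU
    have h8 : (fun e : NT D l => centre (fun i => (z i : G)) (tg U) e.1) ∈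
        dc.th '' {x | nx x < r ^ 2} := by
      by_contra h9
      exact hz (a2 _ h9)
    obtain ⟨x, hx, he⟩ := h8
    have e1 : Q (fun e : NT D l => mt (centre (fun i => (z i : G)) (tg U) e.1)) = f x := by
      have e2 : (fun e : NT D l => mt (centre (fun i => (z i : G)) (tg U) e.1)) =
          fun e => mt (dc.th x e) := by
        funext e
        rw [congrFun he e]
      rw [e2]
      exact a1 x hx
    rw [e1] at hz
    exact ⟨_, _, x, center_inv (hzc z), hfs x hz,
      eq_orb h1 h4 hG dc (hzc z) (fun e => (congrFun he e).symm)⟩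

end Pool.Agent.Q65.LU
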