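import Pool.Agent.Q65.LU.LIFT
import Pool.Agent.Q77.LU.StmU

/-!
Project LU (helper77), uniform version, job LIFTU: lifting functions from the chart.  The proof
follows `t_LIFT` (Q65/LU/LIFT.lean) and `t_LIFT1` (Q16/LU/LIFT1.lean, helper16).
-/

set_option autoImplicit false

namespace Pool.Agent.Q65.LU

open MeasureTheory Matrix Set Filter Topology Pool.Agent.Q77.LU
open scoped ContDiff Matrix.Norms.Frobenius Manifold

section
variable {N n D l : ℕ} {G : Subgroup (UU N)} [NeZero l] {B : LieBasis G n}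

theorem exists_Q (h2 : S_TGA) (h4 : S_SYMM) (h1 : S_THD) (hG : IsClosed (G : Set (UU N)))
    (dc : Dec B D l) {r : ℝ} (hI : InvR dc r) {ρ : ℝ} (hρ : 0 < ρ) (hρr : ρ < r)
    {f : (Fin D × Fin n → ℝ) × (Fin dc.M → ℝ) → ℝ} (hf : ContDiff ℝ ∞ f)
    (hfs : ∀ x, f x ≠ 0 → nx x < ρ ^ 2) (hfi : ∀ h x, f (dc.sg h x) = f x) :
    ∃ Q : (NT D l → Mt N) → ℝ, ContDiff ℝ ∞ Q ∧
      (∀ x, nx x < r ^ 2 → Q (fun e => mt (dc.th x e)) = f x) ∧
      (∀ V : NT D l → G, V ∉ dc.th '' {x | nx x < r ^ 2} → Q (fun e => mt (V e)) = 0) ∧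
      ∀ (h : G) (V : NT D l → G), Q (fun e => mt (h * V e * h⁻¹)) = Q (fun e => mt (V e)) := by
  have hcG : CompactSpace G := compactG hG
  have hc := th_cont h1 hG dc
  obtain ⟨hrp, ⟨Ξ, hΞ, hinv⟩, hopen, -⟩ := hI
  have hρ1 : ρ ^ 2 < r ^ 2 := pow_lt_pow_left₀ hρr hρ.le two_ne_zero
  have hmi : Continuous (fun V : NT D l → G => fun e => mt (V e)) :=
    continuous_pi fun e => mt_cont.comp (continuous_apply e)
  have hinj : ∀ V W : NT D l → G, (fun e => mt (V e)) = (fun e => mt (W e)) → V = W := by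
    intro V W h
    funext e
    exact mt_inj (congrFun h e)
  have hK : IsClosed ((fun V : NT D l → G => fun e => mt (V e)) '' (dc.th '' {x | nx x ≤ ρ ^ 2})) :=
    (((nx_ball_compact ρ hρ).image hc).image hmi).isClosed
  have hC : IsClosed ((fun V : NT D l → G => fun e => mt (V e)) '' (dc.th '' {x | nx x < r ^ 2})ᶜ) := by
    have h8 : IsClosed ((dc.th '' {x | nx x < r ^ 2})ᶜ) :=
      (hopen r hrp le_rfl).isClosed_compl
    exact (h8.isCompact.image hmi).isClosed
  have hd : Disjoint ((fun V : NT D l → G => fun e => mt (V e)) '' (dc.th '' {x | nx x < r ^ 2})ᶜ)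
      ((fun V : NT D l → G => fun e => mt (V e)) '' (dc.th '' {x | nx x ≤ ρ ^ 2})) := by
    rw [Set.disjoint_left]
    rintro _ ⟨V, hV, rfl⟩ ⟨W, ⟨x, hx, rfl⟩, hW⟩
    apply hV
    rw [← hinj _ _ hW]
    exact ⟨x, lt_of_le_of_lt hx hρ1, rfl⟩
  obtain ⟨χ, hχ, hχ0, hχ1⟩ := urysohn hC hK hd
  obtain ⟨Q, hQ⟩ : ∃ Q : (NT D l → Mt N) → ℝ, Q = fun M => f (Ξ M) * χ M := ⟨_, rfl⟩
  have a1 : ∀ x, nx x < r ^ 2 → Q (fun e => mt (dc.th x e)) = f x := by
    intro x hx
    rw [hQ]
    simp only
    rw [hinv x hx]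
    by_cases h8 : f x = 0
    · rw [h8, zero_mul]
    · rw [hχ1 _ ⟨dc.th x, ⟨x, (hfs x h8).le, rfl⟩, rfl⟩, mul_one]
  have a2 : ∀ V : NT D l → G, V ∉ dc.th '' {x | nx x < r ^ 2} → Q (fun e => mt (V e)) = 0 := by
    intro V hV
    rw [hQ]
    simp only
    rw [hχ0 _ ⟨V, hV, rfl⟩, mul_zero]
  refine ⟨Q, by rw [hQ]; exact (hf.comp hΞ).mul hχ, a1, a2, ?_⟩
  intro h V
  by_cases hV : V ∈ dc.th '' {x | nx x < r ^ 2}
  · obtain ⟨x, hx, rfl⟩ := hV
    have e1 : (fun e : NT D l => mt (h * dc.th x e * h⁻¹)) = fun e => mt (dc.th (dc.sg h x) e) := by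
      funext e
      rw [th_sg h2 h4 hG]
    have h9 : nx (dc.sg h x) < r ^ 2 := by rw [nx_sg h4 hG]; exact hx
    rw [e1, a1 _ h9, a1 _ hx, hfi]
  · have h9 : (fun e : NT D l => h * V e * h⁻¹) ∉ dc.th '' {x | nx x < r ^ 2} := by
      rintro ⟨x, hx, he⟩
      apply hV
      refine ⟨dc.sg h⁻¹ x, ?_, ?_⟩
      · change nx (dc.sg h⁻¹ x) < r ^ 2
        rw [nx_sg h4 hG]
        exact hx
      · funext e
        rw [th_sg h2 h4 hG, congrFun he e]
        group
    rw [a2 _ h9, a2 _ hV]

end

theorem t_LIFTU (h1 : S_THD) (h2 : S_TGA) (_h3 : S_CARD) (h4 : S_SYMM) (h5 : S_FINC) : S_LIFTU := by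
  intro N n D G hG B hNC l _ dc r hI hU ρ hρ hρr f hf hfs hfi
  have hfin := h5 N n G hG B hNC
  obtain ⟨hth0, hthS, hthD, hext⟩ := h1 N n D l G hG B dc
  obtain ⟨Q, hQs, a1, a2, a3⟩ := exists_Q h2 h4 h1 hG dc hI hρ hρr hf hfs hfi
  obtain ⟨-, huniq, -⟩ := hU
  have h9 : ∀ x : Fin D → ZMod l, ContDiff ℝ ∞ fun M : Link D l → Mt N => pthM M x := by
    intro x
    unfold pthM
    exact cd_ofFn fun i => cd_ofFn fun s => contDiff_apply _ _ _
  have h8 : ∀ e : Link D l, ContDiff ℝ ∞ fun M : Link D l → Mt N => tgM M e := by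
    intro e
    unfold tgM
    exact ((h9 _).mul (contDiff_apply _ _ _)).mul (cd_conj (h9 _))
  constructor
  · have hft : Fintype (Fin D → Subgroup.center G) := Fintype.ofFinite _
    have hzc : ∀ (z : Fin D → Subgroup.center G) i, ((z i : G)) ∈ Subgroup.center G :=
      fun z i => (z i).2
    obtain ⟨F, hF⟩ : ∃ F : (Link D l → G) → ℝ, F = fun U => ∑ z : Fin D → Subgroup.center G,
      Q (fun e : NT D l => mt (centre (fun i => (z i : G)) (tg U) e.1)) := ⟨_, rfl⟩
    refine ⟨F, ?_, ?_, ?_, ?_, ?_⟩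
    · -- smooth
      refine ⟨fun M => ∑ z : Fin D → Subgroup.center G, Q (fun e : NT D l =>
        if e.1.1 e.1.2 = -1 then mt ((z e.1.2 : G)) * tgM M e.1 else tgM M e.1), ?_, ?_⟩
      · refine ContDiff.sum fun z _ => hQs.comp ?_
        refine contDiff_pi.2 fun e => ?_
        by_cases h9 : e.1.1 e.1.2 = -1
        · simp only [if_pos h9]
          exact contDiff_const.mul (h8 e.1)
        · simp only [if_neg h9]
          exact h8 e.1
      · intro U
        rw [hF]
        simp only
        refine Finset.sum_congr rfl fun z _ => ?_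
        congr 1
        funext e
        unfold centre
        split_ifs
        · rw [mt_mul, mt_tg]
        · rw [mt_tg]
    · -- gauge invariant
      intro γ U
      rw [hF]
      simp only
      refine Finset.sum_congr rfl fun z _ => ?_
      rw [(h2 N D l G U).2.1 γ, ← gauge_centre (hzc z)]
      exact a3 (γ 0) (fun e => centre (fun i => (z i : G)) (tg U) e.1)
    · -- centre invariant
      intro w hw U
      rw [hF]
      simp only
      rw [(h2 N D l G U).2.2.1 w hw]
      refine Fintype.sum_equiv (Equiv.mulRight fun i => (⟨w i, hw i⟩ : Subgroup.center G)) _ _ ?_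
      intro z
      congr 1
      funext e
      rw [centre_centre]
      rfl
    · -- values in the chart
      intro x hx
      rw [hF]
      simp only
      rw [Finset.sum_eq_single (fun _ => (1 : Subgroup.center G))]
      · have e1 : (fun e : NT D l => mt (centre (fun i => (((fun _ => (1 : Subgroup.center G)) :
            Fin D → Subgroup.center G) i : G)) (tg (dc.ch x)) e.1)) = fun e => mt (dc.th x e) := by
          funext e
          exact congrArg Q77.LU.mt (congrFun (centre_eq_one (z := fun _ => (1 : G)) (fun i => rfl)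
            (tg (dc.ch x))) e.1)
        rw [e1]
        exact a1 x hx
      · intro z _ hz
        apply a2 (fun e : NT D l => centre (fun i => (z i : G)) (tg (dc.ch x)) e.1)
        rintro ⟨y, hy, he⟩
        apply hz
        have e2 := eq_ext h1 h2 hG dc (z := fun i => (z i : G)) (U := dc.ch x) (x := y)
          (fun e => (congrFun he e).symm)
        have e3 : dc.ch y = gauge (fun v => (pth (dc.ch y) v)⁻¹ * pth (dc.ch x) v)
            (centre (fun i => (z i : G)) (dc.ch x)) := by
          rw [← gauge_gauge, gauge_centre (hzc z)]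
          change dc.ch y = gauge _ (centre (fun i => (z i : G)) (tg (dc.ch x)))
          rw [e2]
          exact untg _
        have e4 := (huniq _ _ y x (hzc z) hy hx e3).1
        funext i
        exact Subtype.ext (e4 i)
      · intro h
        exact absurd (Finset.mem_univ _) h
    · -- support
      intro U hU
      rw [hF] at hU
      obtain ⟨z, -, hz⟩ := Finset.exists_ne_zero_of_sum_ne_zero hU
      have h8 : (fun e : NT D l => centre (fun i => (z i : G)) (tg U) e.1) ∈
          dc.th '' {x | nx x < r ^ 2} := by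
        by_contra h9
        exact hz (a2 _ h9)
      obtain ⟨x, hx, he⟩ := h8
      have e1 : Q (fun e : NT D l => mt (centre (fun i => (z i : G)) (tg U) e.1)) = f x := by
        have e2 : (fun e : NT D l => mt (centre (fun i => (z i : G)) (tg U) e.1)) =
            fun e => mt (dc.th x e) := by
          funext e
          rw [congrFun he e]
        rw [e2]
        exact a1 x hx
      rw [e1] at hz
      exact ⟨_, _, x, center_inv (hzc z), hfs x hz,
        eq_orb h1 h2 hG dc (hzc z) (fun e => (congrFun he e).symm)⟩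
  · obtain ⟨F, hF⟩ : ∃ F : (Link D l → G) → ℝ, F = fun U =>
      Q (fun e : NT D l => mt (tg U e.1)) := ⟨_, rfl⟩
    refine ⟨F, ?_, ?_, ?_, ?_⟩
    · -- smooth
      refine ⟨fun M => Q (fun e : NT D l => tgM M e.1), ?_, ?_⟩
      · refine hQs.comp ?_
        exact contDiff_pi.2 fun e => h8 e.1
      · intro U
        rw [hF]
        simp only
        congr 1
        funext e
        rw [mt_tg]
    · -- gauge invariant
      intro γ U
      rw [hF]
      simp only
      rw [(h2 N D l G U).2.1 γ]
      exact a3 (γ 0) (fun e => tg U e.1)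
    · -- values in the chart
      intro x hx
      rw [hF]
      exact a1 x hx
    · -- support
      intro U hU
      rw [hF] at hU
      have h8 : (fun e : NT D l => tg U e.1) ∈ dc.th '' {x | nx x < r ^ 2} := by
        by_contra h9
        exact hU (a2 _ h9)
      obtain ⟨x, hx, he⟩ := h8
      have e1 : Q (fun e : NT D l => mt (tg U e.1)) = f x := by
        have e2 : (fun e : NT D l => mt (tg U e.1)) = fun e => mt (dc.th x e) := by
          funext e
          rw [congrFun he e]
        rw [e2]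
        exact a1 x hx
      have hz : f x ≠ 0 := by
        rw [← e1]
        exact hU
      have hz1 : ∀ i : Fin D, (fun _ => (1 : G)) i ∈ Subgroup.center G :=
        fun _ => Subgroup.one_mem _
      have e3 := eq_orb h1 h2 hG dc (z := fun _ : Fin D => (1 : G)) hz1 (U := U) (x := x)
        (fun e => by rw [centre_one]; exact (congrFun he e).symm)
      rw [centre_eq_one (fun i => inv_one)] at e3
      exact ⟨_, x, hfs x hz, e3⟩

end Pool.Agent.Q65.LU
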