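import Pool.Agent.Q65.LU.Basic

/-!
Project LU (helper77), job TAUO: the sets `tau < δ` are small neighbourhoods of the torons.
-/

set_option autoImplicit false

namespace Pool.Agent.Q65.LU

open MeasureTheory Matrix Set Filter Topology Pool.Agent.Q77.LU
open scoped ContDiff Matrix.Norms.Frobenius

theorem t_TAUO (h1 : S_UNIQ) (h2 : S_ZERO) (h3 : S_HC) (h4 : S_TGA) (_h5 : S_EXPG) : S_TAUO := by
  intro N n D l _ G hG hcon B hNC dc ρ hρ
  obtain ⟨r, hr, -, hopen⟩ := h1 N n D l G hG B hNC dc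
  obtain ⟨-, -, -, hts, htg, -, -, htnn, -⟩ := h3 N n D l G hG B
  have hcG : CompactSpace G := compactG hG
  obtain ⟨s, hs, hsr, hsρ⟩ : ∃ s : ℝ, 0 < s ∧ s ≤ r ∧ s ≤ ρ := ⟨min r ρ, lt_min hr hρ, min_le_left _ _, min_le_right _ _⟩
  have hO := hopen s hs hsr
  have hK : IsCompact {U : Link D l → G | Orb dc s U}ᶜ := hO.isClosed_compl.isCompact
  have htc : Continuous (tau B : (Link D l → G) → ℝ) := smooth_cont hts
  have hpos : ∀ U : Link D l → G, ¬ Orb dc s U → 0 < tau B U := by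
    intro U hU
    refine lt_of_le_of_ne (htnn U) fun h0 => hU ?_
    have e1 : tau B (tg U) = 0 := by rw [tg_def, htg, ← h0]
    obtain ⟨k1, -, -, -⟩ := h4 N D l G U
    obtain ⟨z, hz, hzU⟩ := h2 N n D l G hG hcon B (tg U) k1 e1
    refine ⟨fun x => (pth U x)⁻¹, z, 0, hz, by rw [nx_zero]; positivity, ?_⟩
    rw [ch_zero, ← hzU]
    exact untg U
  rcases eq_empty_or_nonempty ({U : Link D l → G | Orb dc s U}ᶜ) with h | h
  · refine ⟨1, one_pos, fun U _ => ?_⟩
    have h5 : U ∈ {U : Link D l → G | Orb dc s U} := by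
      by_contra h6
      have : U ∈ ({U : Link D l → G | Orb dc s U}ᶜ) := h6
      rw [h] at this
      exact this
    exact Orb_mono hs.le hsρ h5
  · obtain ⟨V, hV, hmin⟩ := hK.exists_isMinOn h htc.continuousOn
    refine ⟨tau B V, hpos V hV, fun U hU => ?_⟩
    by_contra h6
    have h7 : U ∈ ({U : Link D l → G | Orb dc s U}ᶜ) := fun h8 => h6 (Orb_mono hs.le hsρ h8)
    exact absurd (hmin h7) (not_le.2 hU)

end Pool.Agent.Q65.LU
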