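import Pool.Agent.Q65.LU.UBasic

/-!
Project LU (helper77), uniform version, job TAUOU: the sets where `tau` is small.
-/

set_option autoImplicit false

namespace Pool.Agent.Q65.LU

open MeasureTheory Matrix Set Filter Topology Pool.Agent.Q77.LU
open scoped ContDiff Matrix.Norms.Frobenius

theorem t_TAUOU (h1 : S_NEARU) (h2 : S_INVU) (h3 : S_THD) (h4 : S_TGA) (h5 : S_HC)
    (_h6 : S_EXPG) : S_TAUOU := by
  intro N n D G hG hcon B hNC
  obtain ⟨K, hK1, hK⟩ := norm_mt_le N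
  obtain ⟨p1, C1, hC1, hnear⟩ := h1 N n D G hG hcon B hNC
  obtain ⟨p2, C2, hC2, hinv⟩ := h2 N n D G hG B
  refine ⟨p1 + p2, K * C1 * C2, ?_, ?_⟩
  · have : 1 ≤ K * C1 := one_le_mul_of_one_le_of_one_le hK1 hC1
    exact one_le_mul_of_one_le_of_one_le this hC2
  intro l _ dc ρ hρ hρr U hU
  obtain ⟨-, -, -, -, -, -, -, htnn, -⟩ := h5 N n D l G hG B
  have hl1 : (1 : ℝ) ≤ (l : ℝ) ^ p1 := pow_l p1
  have hl2 : (1 : ℝ) ≤ (l : ℝ) ^ p2 := pow_l p2
  obtain ⟨r1, hr1⟩ : ∃ r1 : ℝ, r1 = (C2 * (l : ℝ) ^ p2)⁻¹ := ⟨_, rfl⟩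
  have hC1p : 0 < C1 := by linarith
  have hC2p : 0 < C2 := by linarith
  have hKp : 0 < K := by linarith
  have hlp : (0 : ℝ) < (l : ℝ) := by exact_mod_cast Nat.pos_of_ne_zero (NeZero.ne l)
  have hr1p : 0 < r1 := by rw [hr1]; positivity
  obtain ⟨s, hs⟩ : ∃ s : ℝ, s = (K * C1 * C2 * (l : ℝ) ^ (p1 + p2))⁻¹ := ⟨_, rfl⟩
  rw [← hs] at hρr hU
  have hsp : 0 < s := by rw [hs]; positivity
  have hsr : K * C1 * (l : ℝ) ^ p1 * s = r1 := by
    rw [hs, hr1, pow_add]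
    field_simp
  have hI := hinv l dc
  rw [← hr1] at hI
  have hρr1 : ρ ≤ r1 := by
    refine hρr.trans ?_
    rw [← hsr]
    have : 1 ≤ K * C1 * (l : ℝ) ^ p1 :=
      one_le_mul_of_one_le_of_one_le (one_le_mul_of_one_le_of_one_le hK1 hC1) hl1
    nlinarith
  obtain ⟨z, hz, hzU⟩ := hnear l U
  have ht : Real.sqrt (tau B U) < ρ * s := by
    rw [Real.sqrt_lt' (by positivity)]
    exact hU
  -- the configuration in the chart
  obtain ⟨W, hW⟩ : ∃ W : Link D l → G, W = centre (fun i => (z i)⁻¹) (tg U) := ⟨_, rfl⟩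
  have hWn : ∀ e, ‖mt (W e) - 1‖ < r1 * ρ := by
    intro e
    have h7 : ‖mt (W e) - 1‖ ≤ K * ‖mt (tg U e) - mt (centre z (fun _ => 1) e)‖ := by
      rw [hW]
      simp only [centre]
      by_cases h : e.1 e.2 = -1
      · rw [if_pos h, if_pos h, mul_one]
        exact mt_inv_mul_sub (hK G) (z e.2) (tg U e)
      · rw [if_neg h, if_neg h, mt_one]
        have := norm_nonneg (mt (tg U e) - 1)
        nlinarith
    have h8 := hzU e
    calc ‖mt (W e) - 1‖ ≤ K * ‖mt (tg U e) - mt (centre z (fun _ => 1) e)‖ := h7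
      _ ≤ K * (C1 * (l : ℝ) ^ p1 * Real.sqrt (tau B U)) :=
        mul_le_mul_of_nonneg_left h8 (by linarith)
      _ = K * C1 * (l : ℝ) ^ p1 * Real.sqrt (tau B U) := by ring
      _ < K * C1 * (l : ℝ) ^ p1 * (ρ * s) := mul_lt_mul_of_pos_left ht (by positivity)
      _ = r1 * ρ := by rw [← hsr]; ring
  obtain ⟨x, hx, hxW⟩ := hI.bal ρ hρ hρr1 (fun e => W e.1) (fun e => hWn e.1)
  have hcz := center_inv hz
  exact ⟨_, _, x, center_inv hcz, hx, eq_orb h3 h4 hG dc hcz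
    (fun e => by rw [congrFun hxW e, hW])⟩

end Pool.Agent.Q65.LU
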