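import Pool.Agent.Q65.LU.UNIQ
import Pool.Agent.Q77.LU.StmU

/-!
Project LU (helper77), uniform version: elementary facts for the jobs UNIQU, TAUOU, AWAYU.
-/

set_option autoImplicit false

namespace Pool.Agent.Q65.LU

open MeasureTheory Matrix Set Filter Topology Pool.Agent.Q77.LU
open scoped ContDiff Matrix.Norms.Frobenius

theorem norm_mt_le (N : ℕ) : ∃ K : ℝ, 1 ≤ K ∧ ∀ (G : Subgroup (UU N)) (g : G), ‖mt g‖ ≤ K := by
  obtain ⟨K, hK⟩ := (compact_UU (N := N)).isBounded.exists_norm_le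
  exact ⟨max K 1, le_max_right _ _, fun G g => (hK _ g.1.2).trans (le_max_left _ _)⟩

theorem mt_inv_mul_sub {N : ℕ} {G : Subgroup (UU N)} {K : ℝ} (hK : ∀ g : G, ‖mt g‖ ≤ K)
    (g h : G) : ‖mt (g⁻¹ * h) - 1‖ ≤ K * ‖mt h - mt g‖ := by
  have e : mt (g⁻¹ * h) - 1 = mt g⁻¹ * (mt h - mt g) := by
    rw [mul_sub, ← mt_mul, ← mt_mul, inv_mul_cancel, mt_one]
  rw [e]
  exact (Matrix.frobenius_norm_mul _ _).trans
    (mul_le_mul_of_nonneg_right (hK _) (norm_nonneg _))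

theorem mt_mul_inv_sub {N : ℕ} {G : Subgroup (UU N)} {K : ℝ} (hK : ∀ g : G, ‖mt g‖ ≤ K)
    (g h : G) : ‖mt (h * g⁻¹) - 1‖ ≤ K * ‖mt h - mt g‖ := by
  have e : mt (h * g⁻¹) - 1 = (mt h - mt g) * mt g⁻¹ := by
    rw [sub_mul, ← mt_mul, ← mt_mul, mul_inv_cancel, mt_one]
  rw [e, mul_comm K]
  exact (Matrix.frobenius_norm_mul _ _).trans
    (mul_le_mul_of_nonneg_left (hK _) (norm_nonneg _))

theorem center_sep {N : ℕ} {G : Subgroup (UU N)} (hf : Finite (Subgroup.center G)) :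
    ∃ ε : ℝ, 0 < ε ∧ ∀ g ∈ Subgroup.center G, ‖mt g - 1‖ < ε → g = 1 := by
  classical
  obtain ⟨x0, hx0⟩ := Finite.exists_min
    (fun g : Subgroup.center G => if (g : G) = 1 then (1 : ℝ) else ‖mt (g : G) - 1‖)
  refine ⟨if (x0 : G) = 1 then 1 else ‖mt (x0 : G) - 1‖, ?_, fun g hg h => ?_⟩
  · split_ifs with h
    · exact one_pos
    · exact norm_pos_iff.2 (sub_ne_zero.2 fun h' => h (mt_inj h'))
  · by_contra hne
    have h1 := hx0 ⟨g, hg⟩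
    simp only [if_neg hne] at h1
    exact absurd h (not_lt.2 h1)

theorem nx_convex {P Q : Type} [Fintype P] [Fintype Q] :
    Convex ℝ {x : (P → ℝ) × (Q → ℝ) | nx x ≤ 1} := by
  have key : ∀ a b s t : ℝ, 0 ≤ a → 0 ≤ b → a + b = 1 →
      (a * s + b * t) ^ 2 ≤ a * s ^ 2 + b * t ^ 2 := by
    intro a b s t ha hb hab
    have : 0 ≤ a * b * (s - t) ^ 2 := by positivity
    have hb' : b = 1 - a := by linarith
    subst hb'
    nlinarith
  intro x hx y hy a b ha hb hab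
  have h1 : ∀ {R : Type} [Fintype R] (u v : R → ℝ), n2 (a • u + b • v) ≤ a * n2 u + b * n2 v := by
    intro R _ u v
    unfold n2
    rw [Finset.mul_sum, Finset.mul_sum, ← Finset.sum_add_distrib]
    exact Finset.sum_le_sum fun i _ => key a b (u i) (v i) ha hb hab
  change n2 (a • x.1 + b • y.1) + n2 (a • x.2 + b • y.2) ≤ 1
  have h2 := h1 x.1 y.1
  have h3 := h1 x.2 y.2
  have h4 : a * (n2 x.1 + n2 x.2) ≤ a * 1 := mul_le_mul_of_nonneg_left hx ha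
  have h5 : b * (n2 y.1 + n2 y.2) ≤ b * 1 := mul_le_mul_of_nonneg_left hy hb
  linarith

section
variable {N n D l : ℕ} {G : Subgroup (UU N)} [NeZero l] {B : LieBasis G n}

theorem th_near (h2 : S_THD) (hG : IsClosed (G : Set (UU N))) (dc : Dec B D l) {C : ℝ}
    (hC : ∀ x, nx x ≤ 1 →
      ‖iteratedFDeriv ℝ 1 (fun x (e : NT D l) => mt (dc.th x e)) x‖ ≤ C)
    {x : (Fin D × Fin n → ℝ) × (Fin dc.M → ℝ)} {r : ℝ} (hr : 0 < r) (hr1 : r ≤ 1)
    (hx : nx x < r ^ 2) (e : NT D l) : ‖mt (dc.th x e) - 1‖ ≤ C * r := by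
  obtain ⟨hth0, hthS, -, -⟩ := h2 N n D l G hG B dc
  have hC0 : 0 ≤ C := (norm_nonneg _).trans (hC 0 (by rw [nx_zero]; exact zero_le_one))
  have hx1 : nx x ≤ 1 := by
    refine hx.le.trans ?_
    exact pow_le_one₀ hr.le hr1
  have h := Convex.norm_image_sub_le_of_norm_fderiv_le (𝕜 := ℝ)
    (f := fun x (e : NT D l) => mt (dc.th x e)) (C := C)
    (s := {x : (Fin D × Fin n → ℝ) × (Fin dc.M → ℝ) | nx x ≤ 1})
    (x := 0) (y := x) (fun y _ => (hthS.differentiable (by simp)).differentiableAt)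
    (fun y hy => by rw [← norm_iteratedFDeriv_one]; exact hC y hy) nx_convex
    (by change nx 0 ≤ 1; rw [nx_zero]; exact zero_le_one) hx1
  rw [sub_zero] at h
  have h3 : ‖mt (dc.th x e) - mt (dc.th 0 e)‖ ≤
      ‖(fun e : NT D l => mt (dc.th x e)) - fun e : NT D l => mt (dc.th 0 e)‖ :=
    norm_le_pi_norm ((fun e : NT D l => mt (dc.th x e)) - fun e : NT D l => mt (dc.th 0 e)) e
  rw [hth0] at h3
  have h4 : ‖x‖ ≤ r := (norm_lt_of_nx hr hx).le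
  rw [hth0] at h
  calc ‖mt (dc.th x e) - 1‖ ≤ _ := h3
    _ ≤ C * ‖x‖ := h
    _ ≤ C * r := mul_le_mul_of_nonneg_left h4 hC0

end

theorem pow_l {l : ℕ} [NeZero l] (p : ℕ) : (1 : ℝ) ≤ (l : ℝ) ^ p := by
  have h1 : (1 : ℝ) ≤ (l : ℝ) := by exact_mod_cast Nat.one_le_iff_ne_zero.2 (NeZero.ne l)
  exact one_le_pow₀ h1

theorem inv_mono {C1 C : ℝ} {l p1 p : ℕ} [NeZero l] (h1 : 1 ≤ C1) (hC : C1 ≤ C) (hp : p1 ≤ p) :
    (C * (l : ℝ) ^ p)⁻¹ ≤ (C1 * (l : ℝ) ^ p1)⁻¹ := by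
  have hl : (1 : ℝ) ≤ (l : ℝ) := by exact_mod_cast Nat.one_le_iff_ne_zero.2 (NeZero.ne l)
  have h2 : (0 : ℝ) < C1 * (l : ℝ) ^ p1 := mul_pos (by linarith) (pow_pos (by linarith) _)
  refine inv_anti₀ h2 ?_
  exact mul_le_mul hC (pow_le_pow_right₀ hl hp) (pow_nonneg (by linarith) _) (by linarith)

end Pool.Agent.Q65.LU
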