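import Pool.Agent.Q65.LU.UBasic

/-!
Project LU (helper77), uniform version, job UNIQU: uniqueness of the coordinates.
-/

set_option autoImplicit false

namespace Pool.Agent.Q65.LU

open MeasureTheory Matrix Set Filter Topology Pool.Agent.Q77.LU
open scoped ContDiff Matrix.Norms.Frobenius

theorem t_UNIQU (h1 : S_INVU) (h2 : S_THD) (h3 : S_THDU) (h4 : S_FINC) (h5 : S_TGA)
    (_h6 : S_CARD) (h7 : S_SYMM) : S_UNIQU := by
  intro N n D G hG B hNC
  obtain ⟨K, hK1, hK⟩ := norm_mt_le N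
  have hfin := h4 N n G hG B hNC
  obtain ⟨ε, hε, hsep⟩ := center_sep hfin
  obtain ⟨p1, C1, hC1, hinvU⟩ := h1 N n D G hG B
  obtain ⟨p2, C2, hC2, hthU⟩ := h3 N n D G hG B
  obtain ⟨A, hA⟩ : ∃ A : ℝ, A = 1 + 4 * K / ε := ⟨_, rfl⟩
  have hA1 : 1 ≤ A := by
    rw [hA]
    have : 0 ≤ 4 * K / ε := by positivity
    linarith
  have hC : 1 ≤ C1 * C2 * A := one_le_mul_of_one_le_of_one_le
    (one_le_mul_of_one_le_of_one_le hC1 hC2) hA1
  refine ⟨p1 + p2, C1 * C2 * A, hC, ?_⟩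
  intro l _ dc
  have hl1 : (1 : ℝ) ≤ (l : ℝ) ^ p1 := pow_l p1
  have hl2 : (1 : ℝ) ≤ (l : ℝ) ^ p2 := pow_l p2
  obtain ⟨r1, hr1⟩ : ∃ r1 : ℝ, r1 = (C1 * (l : ℝ) ^ p1)⁻¹ := ⟨_, rfl⟩
  obtain ⟨r, hr⟩ : ∃ r : ℝ, r = (C1 * C2 * A * (l : ℝ) ^ (p1 + p2))⁻¹ := ⟨_, rfl⟩
  have hC1p : 0 < C1 := by linarith
  have hC2p : 0 < C2 := by linarith
  have hKp : 0 < K := by linarith
  have hAp : 0 < A := by linarith
  have hlp : (0 : ℝ) < (l : ℝ) := by exact_mod_cast Nat.pos_of_ne_zero (NeZero.ne l)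
  have hrp : 0 < r := by rw [hr]; positivity
  have hr1p : 0 < r1 := by rw [hr1]; positivity
  have hrr1 : r ≤ r1 := by
    rw [hr, hr1]
    refine inv_mono hC1 ?_ (Nat.le_add_right _ _)
    have : 1 ≤ C2 * A := one_le_mul_of_one_le_of_one_le hC2 hA1
    nlinarith
  have hrle : r ≤ 1 := by
    rw [hr]
    exact inv_le_one_of_one_le₀ (one_le_mul_of_one_le_of_one_le hC (pow_l _))
  have hsmall : 2 * K * (C2 * (l : ℝ) ^ p2 * r) < ε := by
    have e1 : C2 * (l : ℝ) ^ p2 * r = (C1 * A * (l : ℝ) ^ p1)⁻¹ := by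
      rw [hr, pow_add]
      field_simp
    have e2 : (C1 * A * (l : ℝ) ^ p1)⁻¹ ≤ A⁻¹ := by
      refine inv_anti₀ (by linarith) ?_
      have h8 : 1 ≤ C1 * (l : ℝ) ^ p1 := one_le_mul_of_one_le_of_one_le hC1 hl1
      nlinarith
    have e3 : 2 * K * A⁻¹ < ε := by
      rw [← div_eq_mul_inv, div_lt_iff₀ (by linarith), hA]
      have : ε * (1 + 4 * K / ε) = ε + 4 * K := by field_simp
      rw [this]
      linarith
    rw [e1]
    calc 2 * K * (C1 * A * (l : ℝ) ^ p1)⁻¹ ≤ 2 * K * A⁻¹ :=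
          mul_le_mul_of_nonneg_left e2 (by linarith)
      _ < ε := e3
  rw [← hr]
  obtain ⟨-, ⟨Ξ, hΞ, hinv⟩, hopen, -⟩ := hinvU l dc
  rw [← hr1] at hinv hopen
  obtain ⟨-, hth1⟩ := hthU l dc
  obtain ⟨hth0, hthS, hthD, hext⟩ := h2 N n D l G hG B dc
  have hnear : ∀ x : (Fin D × Fin n → ℝ) × (Fin dc.M → ℝ), nx x < r ^ 2 → ∀ e,
      ‖mt (dc.th x e) - 1‖ ≤ C2 * (l : ℝ) ^ p2 * r := fun x hx e =>
    th_near h2 hG dc (fun x hx => (hth1 x hx).1) hrp hrle hx e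
  refine ⟨hrp, ?_, fun ρ hρ hρr => ?_⟩
  · intro γ z x y hz hx hy he
    have e1 : tg (dc.ch x) = centre z (tg (dc.ch (dc.sg (γ 0) y))) := by
      rw [he, tg_orb h5 h7 hG dc γ hz]
    have hw : nx (dc.sg (γ 0) y) < r ^ 2 := by rw [nx_sg h7 hG]; exact hy
    have hz1 : ∀ i, z i = 1 := by
      intro i
      have hni : ¬ inT ((-unitv i, i) : Link D l) := by
        intro h
        apply h.2
        simp [unitv]
      have e2 : dc.th x ⟨(-unitv i, i), hni⟩ =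
          z i * dc.th (dc.sg (γ 0) y) ⟨(-unitv i, i), hni⟩ := by
        change tg (dc.ch x) (-unitv i, i) = z i * tg (dc.ch (dc.sg (γ 0) y)) (-unitv i, i)
        rw [e1]
        unfold centre
        rw [if_pos]
        simp [unitv]
      have e3 : dc.th x ⟨(-unitv i, i), hni⟩ *
          (dc.th (dc.sg (γ 0) y) ⟨(-unitv i, i), hni⟩)⁻¹ = z i := by
        rw [e2, mul_inv_cancel_right]
      refine hsep _ (hz i) ?_
      rw [← e3]
      refine (mt_mul_inv_sub (hK G) _ _).trans_lt ?_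
      have h8 := hnear x hx ⟨(-unitv i, i), hni⟩
      have h9 := hnear _ hw ⟨(-unitv i, i), hni⟩
      have h10 : ‖mt (dc.th x ⟨(-unitv i, i), hni⟩) -
          mt (dc.th (dc.sg (γ 0) y) ⟨(-unitv i, i), hni⟩)‖ ≤
          2 * (C2 * (l : ℝ) ^ p2 * r) := by
        have h11 := norm_sub_le_norm_sub_add_norm_sub (mt (dc.th x ⟨(-unitv i, i), hni⟩)) 1
          (mt (dc.th (dc.sg (γ 0) y) ⟨(-unitv i, i), hni⟩))
        rw [norm_sub_rev 1] at h11
        linarith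
      calc K * ‖mt (dc.th x ⟨(-unitv i, i), hni⟩) -
          mt (dc.th (dc.sg (γ 0) y) ⟨(-unitv i, i), hni⟩)‖ ≤
          K * (2 * (C2 * (l : ℝ) ^ p2 * r)) := mul_le_mul_of_nonneg_left h10 (by linarith)
        _ = 2 * K * (C2 * (l : ℝ) ^ p2 * r) := by ring
        _ < ε := hsmall
    refine ⟨hz1, ?_⟩
    rw [centre_eq_one hz1, ← hext, ← hext] at e1
    have e2 := ext_inj e1
    have hle : r ^ 2 ≤ r1 ^ 2 := pow_le_pow_left₀ hrp.le hrr1 2
    rw [← hinv x (hx.trans_le hle), ← hinv _ (hw.trans_le hle), e2]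
  · have ho := hopen ρ hρ (hρr.trans hrr1)
    have e : {U : Link D l → G | Orb dc ρ U} =
        ⋃ z : {z : Fin D → G // ∀ i, z i ∈ Subgroup.center G},
        (fun U : Link D l → G => fun e : NT D l => centre z.1 (tg U) e.1) ⁻¹'
          (dc.th '' {x | nx x < ρ ^ 2}) := by
      ext U
      simp only [mem_ofPred_eq, mem_iUnion, mem_preimage, mem_image]
      constructor
      · rintro ⟨γ, z, x, hz, hx, hU⟩
        refine ⟨⟨fun i => (z i)⁻¹, center_inv hz⟩, dc.sg (γ 0) x, ?_, ?_⟩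
        · rw [nx_sg h7 hG]; exact hx
        · funext e
          rw [hU, tg_orb h5 h7 hG dc γ hz, centre_centre]
          rw [centre_eq_one (fun i => inv_mul_cancel (z i))]
          rfl
      · rintro ⟨z, x, hx, hU⟩
        exact ⟨_, _, x, center_inv z.2, hx,
          eq_orb h2 h5 hG dc z.2 (fun e => (congrFun hU e).symm)⟩
    rw [e]
    refine isOpen_iUnion fun z => ho.preimage ?_
    exact continuous_pi fun e => (continuous_apply e.1).comp ((centre_cont z.1).comp tg_cont)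

end Pool.Agent.Q65.LU
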